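import Pool.Agent.H39.BD.Sharp
import Pool.Agent.H38.Sgn.Main

/-! Passing from error bounds to the number of odd cubic steps. -/

set_option autoImplicit false

namespace Pool.Agent.H39.BD

open Polynomial Pool.Agent.H38.Sgn

theorem eps_le {ok : ℕ → ℝ[X] → Prop} {δ : ℝ} (h0 : 0 < δ) (h1 : δ < 1) {k n : ℕ} {p : ℝ[X]}
    (hk : k ≤ n) (hp : Chain ok k p) : eps ok δ n ≤ err δ p :=
  csInf_le ⟨0, by rintro _ ⟨q, -, rfl⟩; exact err_nonneg h0 h1 q⟩ ⟨p, ⟨k, hk, hp⟩, rfl⟩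

theorem le_eps {ok : ℕ → ℝ[X] → Prop} {δ e : ℝ} {n : ℕ}
    (h : ∀ k p, k ≤ n → Chain ok k p → e ≤ err δ p) : e ≤ eps ok δ n := by
  refine le_csInf ⟨_, ⟨X, ⟨0, Nat.zero_le _, Chain.nil⟩, rfl⟩⟩ ?_
  rintro _ ⟨q, ⟨k, hk, hq⟩, rfl⟩
  exact h k q hk hq

theorem eps_anti {ok : ℕ → ℝ[X] → Prop} {δ : ℝ} (h0 : 0 < δ) (h1 : δ < 1) {m n : ℕ}
    (h : m ≤ n) : eps ok δ n ≤ eps ok δ m :=
  le_eps fun _ _ hk hp => eps_le h0 h1 (hk.trans h) hp

theorem eps_le_one_sub {ok : ℕ → ℝ[X] → Prop} {δ : ℝ} (h0 : 0 < δ) (h1 : δ < 1) (n : ℕ) :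
    eps ok δ n ≤ 1 - δ := by
  refine (eps_le h0 h1 (Nat.zero_le n) Chain.nil).trans (err_le h0 h1 ?_ ?_)
  · intro x hx hx'
    rw [eval_X, abs_of_nonpos (by linarith)]
    linarith
  · intro x hx hx'
    rw [eval_X, abs_of_nonneg (by linarith)]
    linarith

/-- the number of odd cubic steps which match the error `ε` -/
theorem steps_of_eps {δ : ℝ} (h0 : 0 < δ) (h1 : δ < 1) : ∃ K : ℝ, ∀ ε : ℝ, 0 < ε → ε ≤ 1 - δ →
    ∃ T : ℕ, IsLeast {T : ℕ | 1 ≤ T ∧ epsComp δ T ≤ ε} T ∧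
      |(T : ℝ) - Real.logb 2 (Real.log (1 / ε))| ≤ K := by
  have hd : 0 < 1 - δ := by linarith
  -- constants
  set κ : ℝ := 3 / 16 * (1 - δ) with hκ
  have hκ0 : 0 < κ := by rw [hκ]; linarith
  have hκ1 : κ < 1 := by rw [hκ]; linarith
  obtain ⟨θ, hθ0, hθ1, hθ⟩ := epsComp_upper h0 h1
  have hlogκ : 0 < Real.log (1 / κ) := Real.log_pos (by rw [lt_div_iff₀ hκ0]; linarith)
  have hlogθ : 0 < Real.log (1 / θ) := Real.log_pos (by rw [lt_div_iff₀ hθ0]; linarith)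
  have hlogδ : 0 < Real.log (1 / (1 - δ)) := Real.log_pos (by rw [lt_div_iff₀ hd]; linarith)
  set c1 : ℝ := |Real.logb 2 (Real.log (1 / κ))| with hc1
  set c2 : ℝ := |Real.logb 2 (Real.log (1 / θ))| with hc2
  set c3 : ℝ := |Real.logb 2 (Real.log (1 / (1 - δ)))| with hc3
  have p1 : 0 ≤ c1 := abs_nonneg _
  have p2 : 0 ≤ c2 := abs_nonneg _
  have p3 : 0 ≤ c3 := abs_nonneg _
  refine ⟨1 + c1 + c2 + c3, fun ε hε0 hεδ => ?_⟩
  set L := Real.log (1 / ε) with hL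
  have hLδ : Real.log (1 / (1 - δ)) ≤ L :=
    Real.log_le_log (by positivity) (one_div_le_one_div_of_le hε0 hεδ)
  have hL0 : 0 < L := hlogδ.trans_le hLδ
  -- the set is nonempty
  set S : Set ℕ := {T : ℕ | 1 ≤ T ∧ epsComp δ T ≤ ε} with hS
  have hSne : S.Nonempty := by
    obtain ⟨N, hN⟩ := exists_pow_lt_of_lt_one hε0 hθ1
    refine ⟨N + 1, by omega, (hθ (N + 1)).trans (le_trans ?_ hN.le)⟩
    exact pow_le_pow_of_le_one hθ0.le hθ1.le
      ((Nat.lt_two_pow_self (n := N)).le.trans (Nat.pow_le_pow_right (by norm_num) (by omega)))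
  set T := sInf S with hT
  have hTS : T ∈ S := Nat.sInf_mem hSne
  have hleast : IsLeast S T := ⟨hTS, fun a ha => Nat.sInf_le ha⟩
  refine ⟨T, hleast, ?_⟩
  -- (a) lower bound for T
  have ha : Real.logb 2 L - c1 ≤ T := by
    have h2 : κ ^ (2 ^ T) ≤ ε := (epsComp_lower h0 h1 T).trans hTS.2
    have h3 : L ≤ 2 ^ T * Real.log (1 / κ) := by
      have h4 : (1 / ε) ≤ (1 / κ) ^ (2 ^ T) := by
        rw [one_div_pow]
        exact one_div_le_one_div_of_le (by positivity) h2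
      have h5 := Real.log_le_log (by positivity) h4
      rw [Real.log_pow] at h5
      push_cast at h5
      exact h5
    have h4 := Real.logb_le_logb_of_le (b := 2) (by norm_num) hL0 h3
    rw [Real.logb_mul (by positivity) hlogκ.ne', Real.logb_pow,
      Real.logb_self_eq_one (by norm_num)] at h4
    have h5 := le_abs_self (Real.logb 2 (Real.log (1 / κ)))
    rw [mul_one] at h4
    linarith
  -- (b) upper bound for T
  have hb : (T : ℝ) ≤ Real.logb 2 L + 1 + c2 + c3 := by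
    rcases Nat.lt_or_ge T 2 with hlt | hge
    · have hT1 : (T : ℝ) ≤ 1 := by exact_mod_cast (by omega : T ≤ 1)
      have h3 := Real.logb_le_logb_of_le (b := 2) (by norm_num) hlogδ hLδ
      have h4 := neg_abs_le (Real.logb 2 (Real.log (1 / (1 - δ))))
      linarith
    · have hnot : T - 1 ∉ S := fun hmem => by
        have := hleast.2 hmem
        omega
      have hgt : ε < epsComp δ (T - 1) := by
        by_contra hcon
        exact hnot ⟨by omega, not_lt.1 hcon⟩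
      have h2 : ε < θ ^ (2 ^ (T - 1)) := hgt.trans_le (hθ (T - 1))
      have h3 : 2 ^ (T - 1) * Real.log (1 / θ) ≤ L := by
        have h4 : (1 / θ) ^ (2 ^ (T - 1)) ≤ 1 / ε := by
          rw [one_div_pow]
          exact one_div_le_one_div_of_le hε0 h2.le
        have h5 := Real.log_le_log (by positivity) h4
        rw [Real.log_pow] at h5
        push_cast at h5
        exact h5
      have h4 := Real.logb_le_logb_of_le (b := 2) (by norm_num) (by positivity) h3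
      rw [Real.logb_mul (by positivity) hlogθ.ne', Real.logb_pow,
        Real.logb_self_eq_one (by norm_num)] at h4
      have h5 := neg_abs_le (Real.logb 2 (Real.log (1 / θ)))
      have h6 : ((T - 1 : ℕ) : ℝ) = T - 1 := by
        rw [Nat.cast_sub (by omega)]; simp
      rw [h6, mul_one] at h4
      linarith
  rw [abs_le]
  constructor <;> linarith

/-- from the lower bound of the error to the upper bound of `log₂ log (1 / ε)` -/
theorem log_upper {K μ : ℝ} (hK : 0 < K) (hμ : 1 ≤ μ) : ∃ c : ℝ, 0 ≤ c ∧ ∀ (n : ℕ) (ε : ℝ),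
    0 < ε → ε < 1 → 1 / 2 * Real.exp (-√(K * μ ^ n)) ≤ ε →
    Real.logb 2 (Real.log (1 / ε)) ≤ n / 2 * Real.logb 2 μ + c := by
  have hlog2 : 0 < Real.log 2 := Real.log_pos (by norm_num)
  have hμ0 : 0 < μ := by linarith
  have hs : 0 < √K := Real.sqrt_pos.2 hK
  refine ⟨|Real.logb 2 (Real.log 2 + √K)|, abs_nonneg _, fun n ε hε hε1 h => ?_⟩
  have hμ1 : 1 ≤ √(μ ^ n) := by
    rw [Real.one_le_sqrt]
    exact one_le_pow₀ hμ
  have h1 : 1 / ε ≤ 2 * Real.exp (√(K * μ ^ n)) := by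
    rw [Real.exp_neg] at h
    rw [div_le_iff₀ hε]
    have h2 := Real.exp_pos (√(K * μ ^ n))
    have h3 : 1 / 2 * (Real.exp (√(K * μ ^ n)))⁻¹ * (2 * Real.exp (√(K * μ ^ n))) = 1 := by
      field_simp
    nlinarith [mul_le_mul_of_nonneg_right h (by positivity : 0 ≤ 2 * Real.exp (√(K * μ ^ n)))]
  have hL0 : 0 < Real.log (1 / ε) := Real.log_pos (by rw [lt_div_iff₀ hε]; linarith)
  have h2 : Real.log (1 / ε) ≤ (Real.log 2 + √K) * √(μ ^ n) := by
    have h3 := Real.log_le_log (by positivity) h1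
    rw [Real.log_mul (by norm_num) (Real.exp_pos _).ne', Real.log_exp,
      Real.sqrt_mul hK.le] at h3
    nlinarith
  have h3 := Real.logb_le_logb_of_le (b := 2) (by norm_num) hL0 h2
  rw [Real.logb_mul (by positivity) (by positivity)] at h3
  have h4 : Real.logb 2 (√(μ ^ n)) = n / 2 * Real.logb 2 μ := by
    rw [Real.logb, Real.logb, Real.log_sqrt (by positivity), Real.log_pow]
    ring
  have h5 := le_abs_self (Real.logb 2 (Real.log 2 + √K))
  linarith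

/-- from the upper bound of the error to the lower bound of `log₂ log (1 / ε)` -/
theorem log_lower {δ : ℝ} (h1 : δ < 1) (h0 : 0 < δ) {s w n0 : ℕ} (hs : 2 ≤ s)
    (hw : 1 ≤ w) : ∃ c : ℝ, 0 ≤ c ∧ ∀ E : ℕ → ℝ, (∀ m n, m ≤ n → E n ≤ E m) →
    (∀ n, 0 < E n) → (∀ n, E n ≤ 1 - δ) → (∀ k, E (n0 + 2 * w * k) ≤ (1 / 2) ^ (s ^ k)) →
    ∀ n : ℕ, Real.logb 2 s / (2 * w) * n - c ≤ Real.logb 2 (Real.log (1 / E n)) := by
  have hd : 0 < 1 - δ := by linarith
  have hlogδ : 0 < Real.log (1 / (1 - δ)) := Real.log_pos (by rw [lt_div_iff₀ hd]; linarith)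
  have hlog2 : 0 < Real.log 2 := Real.log_pos (by norm_num)
  have hs1 : (1 : ℝ) < s := by exact_mod_cast (by omega : 1 < s)
  have hls : 0 < Real.logb 2 s := Real.logb_pos (by norm_num) hs1
  have hw0 : (0 : ℝ) < w := by exact_mod_cast hw
  set q : ℝ := Real.logb 2 s / (2 * w) with hq
  have hq0 : 0 < q := by positivity
  set c3 : ℝ := |Real.logb 2 (Real.log (1 / (1 - δ)))| with hc3
  set c5 : ℝ := |Real.logb 2 (Real.log 2)| with hc5
  have p3 : 0 ≤ c3 := abs_nonneg _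
  have p5 : 0 ≤ c5 := abs_nonneg _
  have p6 : 0 ≤ q * (n0 + 2 * w) := by positivity
  refine ⟨q * (n0 + 2 * w) + c3 + c5, by positivity, fun E hanti hpos hE hk n => ?_⟩
  set ε := E n with hε
  have hε0 : 0 < ε := hpos n
  have hεδ : ε ≤ 1 - δ := hE n
  set L := Real.log (1 / ε) with hL
  have hLδ : Real.log (1 / (1 - δ)) ≤ L :=
    Real.log_le_log (by positivity) (one_div_le_one_div_of_le hε0 hεδ)
  rcases Nat.lt_or_ge n n0 with hlt | hge
  · have h3 := Real.logb_le_logb_of_le (b := 2) (by norm_num) hlogδ hLδ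
    have h4 := neg_abs_le (Real.logb 2 (Real.log (1 / (1 - δ))))
    have h5 : (n : ℝ) ≤ n0 := by exact_mod_cast hlt.le
    have h6 : q * n ≤ q * (n0 + 2 * w) :=
      mul_le_mul_of_nonneg_left (by linarith) hq0.le
    linarith
  · set k := (n - n0) / (2 * w) with hkd
    have hdm := Nat.div_add_mod (n - n0) (2 * w)
    have hmod := Nat.mod_lt (n - n0) (show 0 < 2 * w by omega)
    rw [← hkd] at hdm
    have hkm : n0 + 2 * w * k ≤ n := by omega
    have hkm' : n ≤ n0 + 2 * w * k + 2 * w := by omega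
    have h2 : ε ≤ (1 / 2) ^ (s ^ k) := (hanti _ _ hkm).trans (hk k)
    have h3 : (s : ℝ) ^ k * Real.log 2 ≤ L := by
      have h4 : (2 : ℝ) ^ (s ^ k) ≤ 1 / ε := by
        rw [le_div_iff₀ hε0]
        calc (2 : ℝ) ^ (s ^ k) * ε ≤ 2 ^ (s ^ k) * (1 / 2) ^ (s ^ k) :=
              mul_le_mul_of_nonneg_left h2 (by positivity)
          _ = 1 := by rw [← mul_pow]; norm_num
      have h5 := Real.log_le_log (by positivity) h4
      rw [Real.log_pow] at h5
      push_cast at h5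
      exact h5
    have h4 := Real.logb_le_logb_of_le (b := 2) (by norm_num) (by positivity) h3
    rw [Real.logb_mul (by positivity) hlog2.ne', Real.logb_pow] at h4
    have h5 := neg_abs_le (Real.logb 2 (Real.log 2))
    have h6 : (n : ℝ) ≤ n0 + 2 * w * k + 2 * w := by exact_mod_cast hkm'
    have h7 : q * n ≤ q * (n0 + 2 * w * k + 2 * w) :=
      mul_le_mul_of_nonneg_left h6 hq0.le
    have h8 : q * (n0 + 2 * w * k + 2 * w) = q * (n0 + 2 * w) + k * Real.logb 2 s := by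
      rw [hq]
      field_simp
      ring
    linarith

/-- everything together for a class of blocks -/
theorem class_main {ok : ℕ → ℝ[X] → Prop} {dg : ℕ → ℕ} {D0 : ℕ} {μ θ : ℝ} (hμ : 1 ≤ μ)
    (hθ0 : 0 < θ) (hθ1 : θ < 1)
    (hdeg : ∀ w f, ok w f → f.natDegree ≤ dg w ∧ 2 ≤ dg w ∧ dg w ≤ D0)
    (hab : ∀ w f, ok w f → ∀ a b : ℕ, 1 ≤ a → 1 ≤ b → a + b = dg w + 1 →
      (a : ℝ) * b ≤ μ ^ w ∧ ((a = 1 ∨ b = 1) → (a : ℝ) * b ≤ θ * μ ^ w))
    (hNS : ∀ T, ∃ n, Chain ok n (NS T)) {a b w : ℕ} (hs : 2 ≤ a * b) (hw : 1 ≤ w)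
    {F : ℝ[X]} (hok1 : ok w (F.comp (C (1 / 2) * X + C (1 / 2))))
    (hok2 : ok w (C 2 * (C (-1) * F.comp (C (-1) * X + C 1) + C 1) + C (-1)))
    (hF0 : X ^ a ∣ F) (hF1 : (X - C 1) ^ b ∣ F - 1)
    {δ : ℝ} (h0 : 0 < δ) (h1 : δ < 1) :
    ∃ K : ℝ, ∀ n : ℕ, 0 < eps ok δ n ∧ eps ok δ n < 1 ∧
      Real.logb 2 (Real.log (1 / eps ok δ n)) ≤ n / 2 * Real.logb 2 μ + K ∧
      Real.logb 2 ((a * b : ℕ) : ℝ) / (2 * w) * n - K ≤
        Real.logb 2 (Real.log (1 / eps ok δ n)) ∧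
      ∃ T : ℕ, IsLeast {T : ℕ | 1 ≤ T ∧ epsComp δ T ≤ eps ok δ n} T ∧
        |(T : ℝ) - Real.logb 2 (Real.log (1 / eps ok δ n))| ≤ K := by
  have hμ0 : 0 < μ := by linarith
  obtain ⟨K, hK, hlow⟩ := chain_lower hμ0 hθ0 hθ1 hdeg hab h0 h1
  have hlow' : ∀ n, 1 / 2 * Real.exp (-√(K * μ ^ n)) ≤ eps ok δ n := by
    intro n
    refine le_eps fun k p hk hp => le_trans ?_ (hlow k p hp)
    apply mul_le_mul_of_nonneg_left _ (by norm_num)
    apply Real.exp_le_exp.2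
    have : √(K * μ ^ k) ≤ √(K * μ ^ n) :=
      Real.sqrt_le_sqrt (mul_le_mul_of_nonneg_left (pow_le_pow_right₀ hμ hk) hK.le)
    linarith
  have hpos : ∀ n, 0 < eps ok δ n := fun n =>
    lt_of_lt_of_le (mul_pos (by norm_num) (Real.exp_pos _)) (hlow' n)
  have hlt : ∀ n, eps ok δ n < 1 := fun n =>
    (eps_le_one_sub h0 h1 n).trans_lt (by linarith)
  obtain ⟨c1, hc1, hup⟩ := log_upper hK hμ
  obtain ⟨hc1', hc2'⟩ := sym_pair hF0 hF1
  obtain ⟨n0, hn0⟩ := chain_upper hNS hs hok1 hok2 hc1' hc2' h0 h1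
  obtain ⟨c2, hc2, hlo⟩ := log_lower h1 h0 (s := a * b) (w := w) (n0 := n0) hs hw
  obtain ⟨c3, hT⟩ := steps_of_eps h0 h1
  have hEk : ∀ k, eps ok δ (n0 + 2 * w * k) ≤ (1 / 2) ^ ((a * b) ^ k) := by
    intro k
    obtain ⟨p, hp, hpe⟩ := hn0 k
    exact (eps_le h0 h1 le_rfl hp).trans hpe
  have hlo' := hlo (fun n => eps ok δ n) (fun m n h => eps_anti h0 h1 h) hpos
    (eps_le_one_sub h0 h1) hEk
  refine ⟨c1 + c2 + |c3|, fun n => ⟨hpos n, hlt n, ?_, ?_, ?_⟩⟩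
  · have := hup n _ (hpos n) (hlt n) (hlow' n)
    linarith [abs_nonneg c3]
  · have := hlo' n
    linarith [abs_nonneg c3]
  · obtain ⟨T, hT1, hT2⟩ := hT _ (hpos n) (eps_le_one_sub h0 h1 n)
    refine ⟨T, hT1, hT2.trans ?_⟩
    linarith [le_abs_self c3]

end Pool.Agent.H39.BD
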