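import Pool.Agent.H39.BD.Coef

/-! One block step: the logarithmic sizes of the images of the two intervals. -/

set_option autoImplicit false

namespace Pool.Agent.H39.BD

open Polynomial

/-- the image of the left interval has relative size at least `exp (-R)` -/
def LeftBig (δ : ℝ) (q : ℝ[X]) (R : ℝ) : Prop :=
  ∃ x, -1 ≤ x ∧ x ≤ -δ ∧
    Real.exp (-R) * |q.eval 1 - q.eval (-1)| ≤ |q.eval x - q.eval (-1)|

/-- the image of the right interval has relative size at least `exp (-S)` -/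
def RightBig (δ : ℝ) (q : ℝ[X]) (S : ℝ) : Prop :=
  ∃ x, δ ≤ x ∧ x ≤ 1 ∧
    Real.exp (-S) * |q.eval 1 - q.eval (-1)| ≤ |q.eval x - q.eval 1|

theorem LeftBig.mono {δ : ℝ} {q : ℝ[X]} {R R' : ℝ} (h : LeftBig δ q R) (hR : R ≤ R') :
    LeftBig δ q R' := by
  obtain ⟨x, h1, h2, h3⟩ := h
  refine ⟨x, h1, h2, le_trans ?_ h3⟩
  exact mul_le_mul_of_nonneg_right (Real.exp_le_exp.2 (by linarith)) (abs_nonneg _)

theorem RightBig.mono {δ : ℝ} {q : ℝ[X]} {R R' : ℝ} (h : RightBig δ q R) (hR : R ≤ R') :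
    RightBig δ q R' := by
  obtain ⟨x, h1, h2, h3⟩ := h
  refine ⟨x, h1, h2, le_trans ?_ h3⟩
  exact mul_le_mul_of_nonneg_right (Real.exp_le_exp.2 (by linarith)) (abs_nonneg _)

/-- intermediate values along a segment of the image -/
theorem seg {q : ℝ[X]} {a b t : ℝ} (ht0 : 0 ≤ t) (ht1 : t ≤ 1) :
    ∃ z, (z ∈ Set.uIcc a b) ∧ q.eval z = q.eval a + t * (q.eval b - q.eval a) := by
  have hc : ContinuousOn (fun x => q.eval x) (Set.uIcc a b) := by fun_prop
  have h1 := intermediate_value_uIcc hc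
  have h2 : q.eval a + t * (q.eval b - q.eval a) ∈ Set.uIcc (q.eval a) (q.eval b) := by
    rw [Set.mem_uIcc]
    rcases le_total (q.eval a) (q.eval b) with h | h
    · left; constructor <;> nlinarith
    · right; constructor <;> nlinarith
  obtain ⟨z, hz, hz2⟩ := h1 h2
  exact ⟨z, hz, hz2⟩

theorem step_k (D k : ℕ) (hD : 1 ≤ D) (hk : k ≤ D) : ∃ C : ℝ, 0 ≤ C ∧
    ∀ (δ : ℝ) (q f : ℝ[X]), f.natDegree ≤ D → ∀ R S : ℝ, 0 ≤ R → 0 ≤ S →
    LeftBig δ q R → RightBig δ q S →
    (1 ≤ k ∧ LeftBig δ (f.comp q) (k * R + C)) ∨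
      (k < D ∧ RightBig δ (f.comp q) ((D - k : ℕ) * S + C)) := by
  obtain ⟨C0, hC0, hcoef⟩ := coef_bound D
  obtain ⟨C1, hC1, hherm⟩ := herm D k hk
  have hC01 : 1 ≤ C0 * C1 := one_le_mul_of_one_le_of_one_le hC0 hC1
  have hpos : 0 < C0 * C1 := by linarith
  refine ⟨Real.log (2 * (C0 * C1)), Real.log_nonneg (by linarith), ?_⟩
  intro δ q f hf R S hR hS hL hRt
  set K := Real.log (2 * (C0 * C1)) with hK
  have hexpK : Real.exp (-K) = 1 / (2 * (C0 * C1)) := by
    rw [hK, Real.exp_neg, Real.exp_log (by linarith), one_div]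
  by_contra hcon
  rw [not_or, not_and, not_and] at hcon
  obtain ⟨hnl, hnr⟩ := hcon
  set u := q.eval (-1) with hu
  set v := q.eval 1 with hv
  set L' := f.eval v - f.eval u with hL'
  have hfv : (f.comp q).eval 1 = f.eval v := by rw [eval_comp]
  have hfu : (f.comp q).eval (-1) = f.eval u := by rw [eval_comp]
  obtain ⟨x0, hx01, hx02, hx0⟩ := hL
  obtain ⟨x1, hx11, hx12, hx1⟩ := hRt
  rw [← hu, ← hv] at hx0 hx1
  -- nondegenerate
  have hL'0 : L' ≠ 0 := by
    intro h0
    rcases Nat.eq_zero_or_pos k with rfl | hk1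
    · refine hnr hD ⟨x1, hx11, hx12, ?_⟩
      rw [hfv, hfu, ← hL', h0, abs_zero, mul_zero]
      exact abs_nonneg _
    · refine hnl hk1 ⟨x0, hx01, hx02, ?_⟩
      rw [hfv, hfu, ← hL', h0, abs_zero, mul_zero]
      exact abs_nonneg _
  have hL0 : v - u ≠ 0 := by
    intro h0
    apply hL'0
    rw [hL', sub_eq_zero.1 h0, sub_self]
  set L := v - u with hLdef
  have hLa : 0 < |L| := abs_pos.2 hL0
  have hL'a : 0 < |L'| := abs_pos.2 hL'0
  -- normalised polynomial
  set g : ℝ[X] := C (1 / L') * (f.comp (C L * X + C u) - C (f.eval u)) with hg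
  have hgev : ∀ y, g.eval y = (f.eval (u + L * y) - f.eval u) / L' := by
    intro y
    simp only [hg, eval_mul, eval_C, eval_sub, eval_comp, eval_add, eval_X]
    rw [add_comm (L * y) u]
    ring
  have hgdeg : g.natDegree ≤ D := by
    refine (natDegree_C_mul_le _ _).trans ((natDegree_sub_le _ _).trans (max_le ?_ ?_))
    · refine natDegree_comp_le.trans ?_
      calc f.natDegree * (C L * X + C u).natDegree ≤ f.natDegree * 1 :=
            Nat.mul_le_mul_left _ natDegree_linear_le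
        _ ≤ D := by rw [mul_one]; exact hf
    · rw [natDegree_C]; exact Nat.zero_le _
  have hg0 : g.eval 0 = 0 := by
    rw [hgev, mul_zero, add_zero, sub_self, zero_div]
  have hg1 : g.eval 1 = 1 := by
    rw [hgev, mul_one, hLdef, add_sub_cancel, ← hL', div_self hL'0]
  -- left coefficients
  have hM0 : 0 ≤ C0 * Real.exp (-K) := by positivity
  have hleft : ∀ j, 1 ≤ j → j ≤ k → |g.coeff j| ≤ C0 * Real.exp (-K) := by
    intro j hj1 hjk
    have hk1 : 1 ≤ k := hj1.trans hjk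
    have hn := hnl hk1
    set y0 := (q.eval x0 - u) / L with hy0
    have hy0a : Real.exp (-R) ≤ |y0| := by
      rw [hy0, abs_div, le_div_iff₀ hLa]
      exact hx0
    have hsm : ∀ t : ℝ, 0 ≤ t → t ≤ 1 → |g.eval (y0 * t)| ≤ Real.exp (-(k * R + K)) := by
      intro t ht0 ht1
      obtain ⟨z, hz, hz2⟩ := seg (q := q) (a := -1) (b := x0) ht0 ht1
      rw [Set.uIcc_of_le hx01] at hz
      have h1 : u + L * (y0 * t) = q.eval z := by
        rw [hz2, hy0, ← hu]
        field_simp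
      have h2 : ¬ Real.exp (-(k * R + K)) * |L'| ≤ |f.eval (q.eval z) - f.eval u| := by
        intro h3
        apply hn
        refine ⟨z, hz.1, hz.2.trans hx02, ?_⟩
        rw [hfv, hfu, eval_comp]
        exact h3
      rw [hgev, h1, abs_div, div_le_iff₀ hL'a]
      exact (not_le.1 h2).le
    have h4 := hcoef g hgdeg _ y0 hsm j
    have h5 : Real.exp (-R) ^ j ≤ |y0| ^ j := pow_le_pow_left₀ (Real.exp_pos _).le hy0a j
    have h6 : |g.coeff j| * Real.exp (-R) ^ j ≤ C0 * Real.exp (-(k * R + K)) :=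
      (mul_le_mul_of_nonneg_left h5 (abs_nonneg _)).trans h4
    have h7 : Real.exp (-(k * R + K)) ≤ Real.exp (-K) * Real.exp (-R) ^ j := by
      rw [← Real.exp_nat_mul, ← Real.exp_add]
      apply Real.exp_le_exp.2
      have : (j : ℝ) * R ≤ k * R := mul_le_mul_of_nonneg_right (by exact_mod_cast hjk) hR
      linarith
    have h8 : |g.coeff j| * Real.exp (-R) ^ j ≤ (C0 * Real.exp (-K)) * Real.exp (-R) ^ j := by
      rw [mul_assoc]
      exact h6.trans (mul_le_mul_of_nonneg_left h7 (by linarith))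
    exact le_of_mul_le_mul_right h8 (by positivity)
  -- right coefficients
  have hright : ∀ j, 1 ≤ j → j ≤ D - k → |(taylor 1 g).coeff j| ≤ C0 * Real.exp (-K) := by
    intro j hj1 hjk
    have hk1 : k < D := by omega
    have hn := hnr hk1
    set y1 := (q.eval x1 - v) / L with hy1
    have hy1a : Real.exp (-S) ≤ |y1| := by
      rw [hy1, abs_div, le_div_iff₀ hLa]
      exact hx1
    set h : ℝ[X] := taylor 1 g - C 1 with hh
    have hhev : ∀ y, h.eval y = g.eval (y + 1) - 1 := by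
      intro y
      rw [hh, eval_sub, taylor_eval, eval_C]
    have hhdeg : h.natDegree ≤ D := by
      refine (natDegree_sub_le _ _).trans (max_le ?_ ?_)
      · rw [natDegree_taylor]; exact hgdeg
      · rw [natDegree_C]; exact Nat.zero_le _
    have hsm : ∀ t : ℝ, 0 ≤ t → t ≤ 1 →
        |h.eval (y1 * t)| ≤ Real.exp (-((D - k : ℕ) * S + K)) := by
      intro t ht0 ht1
      obtain ⟨z, hz, hz2⟩ := seg (q := q) (a := 1) (b := x1) ht0 ht1
      rw [Set.uIcc_of_ge hx12] at hz
      have h1 : u + L * (y1 * t + 1) = q.eval z := by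
        rw [hz2, hy1, ← hv]
        have : u = v - L := by rw [hLdef]; ring
        rw [this]
        field_simp
        ring
      have h2 : ¬ Real.exp (-((D - k : ℕ) * S + K)) * |L'| ≤
          |f.eval (q.eval z) - f.eval v| := by
        intro h3
        apply hn
        refine ⟨z, hx11.trans hz.1, hz.2, ?_⟩
        rw [hfv, hfu, eval_comp]
        exact h3
      have h3 : h.eval (y1 * t) = (f.eval (q.eval z) - f.eval v) / L' := by
        rw [hhev, hgev, h1, div_sub_one hL'0, hL']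
        congr 1
        ring
      rw [h3, abs_div, div_le_iff₀ hL'a]
      exact (not_le.1 h2).le
    have h4 := hcoef h hhdeg _ y1 hsm j
    have hcj : h.coeff j = (taylor 1 g).coeff j := by
      obtain ⟨e, rfl⟩ : ∃ e, j = e + 1 := ⟨j - 1, by omega⟩
      rw [hh, coeff_sub, coeff_C_succ, sub_zero]
    rw [hcj] at h4
    have h5 : Real.exp (-S) ^ j ≤ |y1| ^ j := pow_le_pow_left₀ (Real.exp_pos _).le hy1a j
    have h6 : |(taylor 1 g).coeff j| * Real.exp (-S) ^ j ≤
        C0 * Real.exp (-((D - k : ℕ) * S + K)) :=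
      (mul_le_mul_of_nonneg_left h5 (abs_nonneg _)).trans h4
    have h7 : Real.exp (-((D - k : ℕ) * S + K)) ≤ Real.exp (-K) * Real.exp (-S) ^ j := by
      rw [← Real.exp_nat_mul, ← Real.exp_add]
      apply Real.exp_le_exp.2
      have : (j : ℝ) * S ≤ (D - k : ℕ) * S := mul_le_mul_of_nonneg_right (by exact_mod_cast hjk) hS
      linarith
    have h8 : |(taylor 1 g).coeff j| * Real.exp (-S) ^ j ≤
        (C0 * Real.exp (-K)) * Real.exp (-S) ^ j := by
      rw [mul_assoc]
      exact h6.trans (mul_le_mul_of_nonneg_left h7 (by linarith))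
    exact le_of_mul_le_mul_right h8 (by positivity)
  have hfin := hherm g hgdeg hg0 _ hM0 hleft hright
  rw [hg1, abs_one, hexpK] at hfin
  have : C1 * (C0 * (1 / (2 * (C0 * C1)))) = 1 / 2 := by
    field_simp
  rw [this] at hfin
  linarith

/-- one block of degree at most `D`: the logarithmic sizes are multiplied by `a` and `b` with
`a + b = D + 1`, up to an additive constant -/
theorem step (D : ℕ) (hD : 1 ≤ D) : ∃ C : ℝ, 0 ≤ C ∧
    ∀ (δ : ℝ) (q f : ℝ[X]), f.natDegree ≤ D → ∀ R S : ℝ, 0 ≤ R → 0 ≤ S →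
    LeftBig δ q R → RightBig δ q S → ∃ a b : ℕ, 1 ≤ a ∧ 1 ≤ b ∧ a + b = D + 1 ∧
      LeftBig δ (f.comp q) (a * R + C) ∧ RightBig δ (f.comp q) (b * S + C) := by
  have hch : ∀ k : ℕ, ∃ C : ℝ, 0 ≤ C ∧ (k ≤ D → ∀ (δ : ℝ) (q f : ℝ[X]), f.natDegree ≤ D →
      ∀ R S : ℝ, 0 ≤ R → 0 ≤ S → LeftBig δ q R → RightBig δ q S →
      (1 ≤ k ∧ LeftBig δ (f.comp q) (k * R + C)) ∨
        (k < D ∧ RightBig δ (f.comp q) ((D - k : ℕ) * S + C))) := by
    intro k
    by_cases hk : k ≤ D
    · obtain ⟨C, hC, h⟩ := step_k D k hD hk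
      exact ⟨C, hC, fun _ => h⟩
    · exact ⟨0, le_rfl, fun h => absurd h hk⟩
  choose c hc0 hc using hch
  refine ⟨∑ k ∈ Finset.range (D + 1), c k, Finset.sum_nonneg fun k _ => hc0 k, ?_⟩
  intro δ q f hf R S hR hS hL hRt
  set K := ∑ k ∈ Finset.range (D + 1), c k with hK
  have hcK : ∀ k, k ≤ D → c k ≤ K := fun k hk =>
    Finset.single_le_sum (fun i _ => hc0 i) (Finset.mem_range.2 (by omega))
  have hex : ∃ k, 1 ≤ k ∧ k ≤ D ∧ LeftBig δ (f.comp q) (k * R + K) := by
    rcases hc D le_rfl δ q f hf R S hR hS hL hRt with h | h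
    · exact ⟨D, hD, le_rfl, h.2.mono (by linarith [hcK D le_rfl])⟩
    · exact absurd h.1 (lt_irrefl _)
  classical
  set a := Nat.find hex with ha
  obtain ⟨ha1, haD, haL⟩ := Nat.find_spec hex
  rw [← ha] at ha1 haD haL
  refine ⟨a, D + 1 - a, ha1, by omega, by omega, haL, ?_⟩
  rcases hc (a - 1) (by omega) δ q f hf R S hR hS hL hRt with h | h
  · exfalso
    refine Nat.find_min hex (show a - 1 < a by omega) ⟨h.1, by omega, h.2.mono ?_⟩
    linarith [hcK (a - 1) (by omega)]
  · have h1 : D - (a - 1) = D + 1 - a := by omega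
    have h2 := h.2
    rw [h1] at h2
    exact h2.mono (by linarith [hcK (a - 1) (by omega)])

end Pool.Agent.H39.BD
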