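import Pool.Agent.H39.BD.Defs
import Pool.Agent.H39.BD.Step
import Pool.Agent.H38.Sgn.Basic

/-! Lower bounds for the error of compositions of blocks. -/

set_option autoImplicit false

namespace Pool.Agent.H39.BD

open Polynomial Pool.Agent.H38.Sgn

theorem step_unif (D0 : ℕ) : ∃ C : ℝ, 0 ≤ C ∧ ∀ D : ℕ, 1 ≤ D → D ≤ D0 →
    ∀ (δ : ℝ) (q f : ℝ[X]), f.natDegree ≤ D → ∀ R S : ℝ, 0 ≤ R → 0 ≤ S →
    LeftBig δ q R → RightBig δ q S → ∃ a b : ℕ, 1 ≤ a ∧ 1 ≤ b ∧ a + b = D + 1 ∧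
      LeftBig δ (f.comp q) (a * R + C) ∧ RightBig δ (f.comp q) (b * S + C) := by
  have hch : ∀ D : ℕ, ∃ C : ℝ, 0 ≤ C ∧ (1 ≤ D →
    ∀ (δ : ℝ) (q f : ℝ[X]), f.natDegree ≤ D → ∀ R S : ℝ, 0 ≤ R → 0 ≤ S →
    LeftBig δ q R → RightBig δ q S → ∃ a b : ℕ, 1 ≤ a ∧ 1 ≤ b ∧ a + b = D + 1 ∧
      LeftBig δ (f.comp q) (a * R + C) ∧ RightBig δ (f.comp q) (b * S + C)) := by
    intro D
    by_cases hD : 1 ≤ D
    · obtain ⟨C, hC, h⟩ := step D hD
      exact ⟨C, hC, fun _ => h⟩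
    · exact ⟨0, le_rfl, fun h => absurd h hD⟩
  choose c hc0 hc using hch
  refine ⟨∑ k ∈ Finset.range (D0 + 1), c k, Finset.sum_nonneg fun k _ => hc0 k, ?_⟩
  intro D hD hD0 δ q f hf R S hR hS hL hRt
  have hcK : c D ≤ ∑ k ∈ Finset.range (D0 + 1), c k :=
    Finset.single_le_sum (fun i _ => hc0 i) (Finset.mem_range.2 (by omega))
  obtain ⟨a, b, ha, hb, hab, h1, h2⟩ := hc D hD δ q f hf R S hR hS hL hRt
  exact ⟨a, b, ha, hb, hab, h1.mono (by linarith), h2.mono (by linarith)⟩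

theorem side {a : ℕ} (ha : 1 ≤ a) {R C A κ : ℝ} {n : ℕ} (_hR : 0 ≤ R) (hC : 0 ≤ C) (hA : 1 ≤ A)
    (h : R + C ≤ A * (κ + C * n)) :
    (a * R + C) + C ≤ (a * A) * (κ + C * ((n + if a = 1 then 1 else 0 : ℕ) : ℝ)) := by
  split_ifs with h1
  · subst h1
    push_cast
    nlinarith
  · have h2 : (2 : ℝ) ≤ a := by exact_mod_cast (by omega : 2 ≤ a)
    rw [add_zero, mul_assoc]
    calc (a * R + C) + C ≤ a * (R + C) := by nlinarith
      _ ≤ a * (A * (κ + C * n)) := mul_le_mul_of_nonneg_left h (by linarith)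

theorem bdd_poly_geom {θ : ℝ} (h0 : 0 < θ) (h1 : θ < 1) {κ C : ℝ} :
    ∃ K : ℝ, 0 < K ∧ ∀ n : ℕ, θ ^ n * (κ + C * n) ^ 2 ≤ K := by
  obtain ⟨M, hM⟩ := (tendsto_pow_const_mul_const_pow_of_abs_lt_one 2
    (show |θ| < 1 by rw [abs_of_pos h0]; exact h1)).bddAbove_range
  refine ⟨2 * κ ^ 2 + 2 * C ^ 2 * M + 1, ?_, ?_⟩
  · have h2 : (0 : ℝ) ≤ M := by
      have := hM ⟨0, rfl⟩
      simpa using this
    positivity
  · intro n
    have h2 : (n : ℝ) ^ 2 * θ ^ n ≤ M := hM ⟨n, rfl⟩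
    have h3 : θ ^ n ≤ 1 := pow_le_one₀ h0.le h1.le
    have h4 : 0 < θ ^ n := by positivity
    have h5 : (κ + C * n) ^ 2 ≤ 2 * κ ^ 2 + 2 * C ^ 2 * (n : ℝ) ^ 2 := by
      nlinarith [sq_nonneg (κ - C * n)]
    calc θ ^ n * (κ + C * n) ^ 2 ≤ θ ^ n * (2 * κ ^ 2 + 2 * C ^ 2 * (n : ℝ) ^ 2) :=
          mul_le_mul_of_nonneg_left h5 h4.le
      _ = 2 * κ ^ 2 * θ ^ n + 2 * C ^ 2 * ((n : ℝ) ^ 2 * θ ^ n) := by ring
      _ ≤ 2 * κ ^ 2 * 1 + 2 * C ^ 2 * M := by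
          apply add_le_add
          · exact mul_le_mul_of_nonneg_left h3 (by positivity)
          · exact mul_le_mul_of_nonneg_left h2 (by positivity)
      _ ≤ 2 * κ ^ 2 + 2 * C ^ 2 * M + 1 := by linarith

theorem err_ge_left {δ : ℝ} (h0 : 0 < δ) (h1 : δ < 1) {p : ℝ[X]} {R : ℝ} (hR : 0 ≤ R)
    (h : LeftBig δ p R) : 1 / 2 * Real.exp (-R) ≤ err δ p := by
  obtain ⟨x, hx1, hx2, hx⟩ := h
  set e := err δ p with he
  have e1 := abs_le.1 (le_err_pos h0 (p := p) h1.le le_rfl)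
  have e2 := abs_le.1 (le_err_neg h0 (p := p) le_rfl (by linarith : (-1 : ℝ) ≤ -δ))
  have e3 := abs_le.1 (le_err_neg h0 (p := p) hx1 hx2)
  rw [← he] at e1 e2 e3
  have h3 : |p.eval x - p.eval (-1)| ≤ 2 * e := by
    rw [abs_le]; constructor <;> linarith [e2.1, e2.2, e3.1, e3.2]
  have h4 : 2 - 2 * e ≤ |p.eval 1 - p.eval (-1)| := by
    refine le_trans ?_ (le_abs_self _)
    linarith [e1.1, e2.2]
  have hE : Real.exp (-R) ≤ 1 := Real.exp_le_one_iff.2 (by linarith)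
  have hE0 : 0 < Real.exp (-R) := Real.exp_pos _
  have h5 : Real.exp (-R) * (2 - 2 * e) ≤ 2 * e :=
    (mul_le_mul_of_nonneg_left h4 hE0.le).trans (hx.trans h3)
  have he0 : 0 ≤ e := err_nonneg h0 h1 p
  nlinarith

theorem err_ge_right {δ : ℝ} (h0 : 0 < δ) (h1 : δ < 1) {p : ℝ[X]} {R : ℝ} (hR : 0 ≤ R)
    (h : RightBig δ p R) : 1 / 2 * Real.exp (-R) ≤ err δ p := by
  obtain ⟨x, hx1, hx2, hx⟩ := h
  set e := err δ p with he
  have e1 := abs_le.1 (le_err_pos h0 (p := p) h1.le le_rfl)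
  have e2 := abs_le.1 (le_err_neg h0 (p := p) le_rfl (by linarith : (-1 : ℝ) ≤ -δ))
  have e3 := abs_le.1 (le_err_pos h0 (p := p) hx1 hx2)
  rw [← he] at e1 e2 e3
  have h3 : |p.eval x - p.eval 1| ≤ 2 * e := by
    rw [abs_le]; constructor <;> linarith [e1.1, e1.2, e3.1, e3.2]
  have h4 : 2 - 2 * e ≤ |p.eval 1 - p.eval (-1)| := by
    refine le_trans ?_ (le_abs_self _)
    linarith [e1.1, e2.2]
  have hE : Real.exp (-R) ≤ 1 := Real.exp_le_one_iff.2 (by linarith)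
  have hE0 : 0 < Real.exp (-R) := Real.exp_pos _
  have h5 : Real.exp (-R) * (2 - 2 * e) ≤ 2 * e :=
    (mul_le_mul_of_nonneg_left h4 hE0.le).trans (hx.trans h3)
  have he0 : 0 ≤ e := err_nonneg h0 h1 p
  nlinarith

/-- the lower bound for the error of a composition of blocks -/
theorem chain_lower {ok : ℕ → ℝ[X] → Prop} {dg : ℕ → ℕ} {D0 : ℕ} {μ θ : ℝ} (hμ : 0 < μ)
    (hθ0 : 0 < θ) (hθ1 : θ < 1)
    (hdeg : ∀ w f, ok w f → f.natDegree ≤ dg w ∧ 2 ≤ dg w ∧ dg w ≤ D0)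
    (hab : ∀ w f, ok w f → ∀ a b : ℕ, 1 ≤ a → 1 ≤ b → a + b = dg w + 1 →
      (a : ℝ) * b ≤ μ ^ w ∧ ((a = 1 ∨ b = 1) → (a : ℝ) * b ≤ θ * μ ^ w))
    {δ : ℝ} (h0 : 0 < δ) (h1 : δ < 1) :
    ∃ K : ℝ, 0 < K ∧ ∀ n p, Chain ok n p → 1 / 2 * Real.exp (-√(K * μ ^ n)) ≤ err δ p := by
  obtain ⟨C, hC, hstep⟩ := step_unif D0
  have hd : 0 < 1 - δ := by linarith
  have h2d : 1 ≤ 2 / (1 - δ) := by rw [le_div_iff₀ hd]; linarith
  set R0 := Real.log (2 / (1 - δ)) with hR0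
  have hR00 : 0 ≤ R0 := Real.log_nonneg h2d
  have hexp : Real.exp (-R0) = (1 - δ) / 2 := by
    rw [hR0, Real.exp_neg, Real.exp_log (by linarith), inv_div]
  set κ := R0 + C with hκ
  have hκ0 : 0 ≤ κ := by rw [hκ]; linarith
  have inv : ∀ n p, Chain ok n p → ∃ (A B R S : ℝ) (n1 n2 : ℕ), 1 ≤ A ∧ 1 ≤ B ∧ 0 ≤ R ∧
      0 ≤ S ∧ LeftBig δ p R ∧ RightBig δ p S ∧ R + C ≤ A * (κ + C * n1) ∧
      S + C ≤ B * (κ + C * n2) ∧ A * B ≤ θ ^ (n1 + n2) * μ ^ n := by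
    intro n p h
    induction h with
    | nil =>
      refine ⟨1, 1, R0, R0, 0, 0, le_rfl, le_rfl, hR00, hR00, ?_, ?_, ?_, ?_, ?_⟩
      · refine ⟨-δ, by linarith, le_rfl, ?_⟩
        rw [hexp, eval_X, eval_X, eval_X, show (1 : ℝ) - -1 = 2 by norm_num,
          abs_of_pos (by norm_num : (0 : ℝ) < 2), abs_of_pos (by linarith : (0 : ℝ) < -δ - -1)]
        linarith
      · refine ⟨δ, le_rfl, h1.le, ?_⟩
        rw [hexp, eval_X, eval_X, eval_X, show (1 : ℝ) - -1 = 2 by norm_num,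
          abs_of_pos (by norm_num : (0 : ℝ) < 2), abs_of_neg (by linarith : δ - 1 < 0)]
        linarith
      · push_cast; linarith
      · push_cast; linarith
      · simp
    | @cons n w p f hch hok ih =>
      obtain ⟨A, B, R, S, n1, n2, hA, hB, hR, hS, hL, hRt, hA2, hB2, hAB⟩ := ih
      obtain ⟨hf1, hf2, hf3⟩ := hdeg w f hok
      obtain ⟨a, b, ha, hb, hab1, hL', hR'⟩ := hstep (dg w) (by omega) hf3 δ p f hf1 R S hR hS
        hL hRt
      obtain ⟨hab2, hab3⟩ := hab w f hok a b ha hb hab1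
      have haR : (1 : ℝ) ≤ a := by exact_mod_cast ha
      have hbR : (1 : ℝ) ≤ b := by exact_mod_cast hb
      refine ⟨a * A, b * B, a * R + C, b * S + C, n1 + if a = 1 then 1 else 0,
        n2 + if b = 1 then 1 else 0, one_le_mul_of_one_le_of_one_le haR hA,
        one_le_mul_of_one_le_of_one_le hbR hB, by positivity, by positivity, hL', hR',
        side ha hR hC hA hA2, side hb hS hC hB hB2, ?_⟩
      have hprod : (a : ℝ) * b ≤ θ ^ ((if a = 1 then 1 else 0) + if b = 1 then 1 else 0) *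
          μ ^ w := by
        by_cases ha1 : a = 1
        · have hb1 : b ≠ 1 := by omega
          rw [if_pos ha1, if_neg hb1, add_zero, pow_one]
          exact hab3 (Or.inl ha1)
        · by_cases hb1 : b = 1
          · rw [if_neg ha1, if_pos hb1, zero_add, pow_one]
            exact hab3 (Or.inr hb1)
          · rw [if_neg ha1, if_neg hb1, add_zero, pow_zero, one_mul]
            exact hab2
      calc (a : ℝ) * A * (b * B) = (a * b) * (A * B) := by ring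
        _ ≤ (θ ^ ((if a = 1 then 1 else 0) + if b = 1 then 1 else 0) * μ ^ w) *
            (θ ^ (n1 + n2) * μ ^ n) := by
            apply mul_le_mul hprod hAB (by positivity) (by positivity)
        _ = _ := by
            rw [pow_add μ n w]
            have : n1 + (if a = 1 then 1 else 0) + (n2 + if b = 1 then 1 else 0) =
              ((if a = 1 then 1 else 0) + if b = 1 then 1 else 0) + (n1 + n2) := by omega
            rw [this, pow_add θ _ (n1 + n2)]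
            ring
  obtain ⟨K, hK, hKb⟩ := bdd_poly_geom hθ0 hθ1 (κ := κ) (C := C)
  refine ⟨K, hK, fun n p hp => ?_⟩
  obtain ⟨A, B, R, S, n1, n2, hA, hB, hR, hS, hL, hRt, hA2, hB2, hAB⟩ := inv n p hp
  have hn1 : κ + C * n1 ≤ κ + C * ((n1 + n2 : ℕ) : ℝ) := by
    push_cast; nlinarith [mul_nonneg hC (Nat.cast_nonneg (α := ℝ) n2)]
  have hn2 : κ + C * n2 ≤ κ + C * ((n1 + n2 : ℕ) : ℝ) := by
    push_cast; nlinarith [mul_nonneg hC (Nat.cast_nonneg (α := ℝ) n1)]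
  have hnn : 0 ≤ κ + C * ((n1 + n2 : ℕ) : ℝ) := by positivity
  have hRS : R * S ≤ K * μ ^ n := by
    calc R * S ≤ (R + C) * (S + C) := mul_le_mul (by linarith) (by linarith) hS (by linarith)
      _ ≤ (A * (κ + C * ((n1 + n2 : ℕ) : ℝ))) * (B * (κ + C * ((n1 + n2 : ℕ) : ℝ))) := by
          apply mul_le_mul (hA2.trans (mul_le_mul_of_nonneg_left hn1 (by linarith)))
            (hB2.trans (mul_le_mul_of_nonneg_left hn2 (by linarith))) (by linarith)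
            (by positivity)
      _ = (A * B) * (κ + C * ((n1 + n2 : ℕ) : ℝ)) ^ 2 := by ring
      _ ≤ (θ ^ (n1 + n2) * μ ^ n) * (κ + C * ((n1 + n2 : ℕ) : ℝ)) ^ 2 :=
          mul_le_mul_of_nonneg_right hAB (by positivity)
      _ = (θ ^ (n1 + n2) * (κ + C * ((n1 + n2 : ℕ) : ℝ)) ^ 2) * μ ^ n := by ring
      _ ≤ K * μ ^ n := mul_le_mul_of_nonneg_right (hKb _) (by positivity)
  rcases le_total R S with hle | hle
  · refine le_trans ?_ (err_ge_left h0 h1 hR hL)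
    apply mul_le_mul_of_nonneg_left _ (by norm_num)
    apply Real.exp_le_exp.2
    have : R ≤ √(K * μ ^ n) := Real.le_sqrt_of_sq_le (by nlinarith)
    linarith
  · refine le_trans ?_ (err_ge_right h0 h1 hS hRt)
    apply mul_le_mul_of_nonneg_left _ (by norm_num)
    apply Real.exp_le_exp.2
    have : S ≤ √(K * μ ^ n) := Real.le_sqrt_of_sq_le (by nlinarith)
    linarith

end Pool.Agent.H39.BD
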