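import Mathlib

/-! Coefficients of polynomials of degree at most `D` are bounded by values on an interval. -/

set_option autoImplicit false

namespace Pool.Agent.H39.BD

open Polynomial

/-- coefficients are bounded by the values on a segment starting at `0` -/
theorem coef_bound (D : ℕ) : ∃ C : ℝ, 1 ≤ C ∧ ∀ g : ℝ[X], g.natDegree ≤ D → ∀ M y : ℝ,
    (∀ t : ℝ, 0 ≤ t → t ≤ 1 → |g.eval (y * t)| ≤ M) → ∀ j, |g.coeff j| * |y| ^ j ≤ C * M := by
  set x : Fin (D + 1) → ℝ := fun i => ((i : ℕ) : ℝ) / ((D : ℝ) + 1) with hx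
  have hD : (0 : ℝ) < (D : ℝ) + 1 := by positivity
  have hinj : Function.Injective x := by
    intro i k h
    simp only [hx] at h
    rw [div_left_inj' hD.ne'] at h
    exact Fin.ext (by exact_mod_cast h)
  set V := Matrix.vandermonde x with hV
  have hdet : IsUnit V.det := (Matrix.det_vandermonde_ne_zero_iff.2 hinj).isUnit
  have hS0 : 0 ≤ ∑ i, ∑ k, |V⁻¹ i k| :=
    Finset.sum_nonneg fun i _ => Finset.sum_nonneg fun k _ => abs_nonneg _
  refine ⟨1 + ∑ i, ∑ k, |V⁻¹ i k|, by linarith, ?_⟩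
  intro g hg M y hM j
  have hM0 : 0 ≤ M := (abs_nonneg _).trans (hM 0 le_rfl zero_le_one)
  rcases Nat.lt_or_ge D j with hj | hj
  · rw [coeff_eq_zero_of_natDegree_lt (hg.trans_lt hj), abs_zero, zero_mul]
    positivity
  · set c : Fin (D + 1) → ℝ := fun k => g.coeff k * y ^ (k : ℕ) with hc
    have h1 : ∀ i, (V.mulVec c) i = g.eval (y * x i) := by
      intro i
      rw [eval_eq_sum_range' (Nat.lt_succ_of_le hg), Finset.sum_range]
      simp only [Matrix.mulVec, dotProduct, hV, Matrix.vandermonde_apply, hc]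
      refine Finset.sum_congr rfl fun k _ => ?_
      rw [mul_pow]
      ring
    have h2 : c = V⁻¹.mulVec (V.mulVec c) := by
      rw [Matrix.mulVec_mulVec, Matrix.nonsing_inv_mul V hdet, Matrix.one_mulVec]
    set jj : Fin (D + 1) := ⟨j, Nat.lt_succ_of_le hj⟩ with hjj
    have h3 : |c jj| ≤ (∑ k, |V⁻¹ jj k|) * M := by
      rw [h2]
      simp only [Matrix.mulVec, dotProduct]
      rw [Finset.sum_mul]
      refine (Finset.abs_sum_le_sum_abs _ _).trans (Finset.sum_le_sum fun k _ => ?_)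
      rw [abs_mul]
      refine mul_le_mul_of_nonneg_left ?_ (abs_nonneg _)
      have h4 := h1 k
      simp only [Matrix.mulVec, dotProduct] at h4
      rw [h4]
      refine hM _ (by simp only [hx]; positivity) ?_
      simp only [hx]
      rw [div_le_one hD]
      have : (k : ℕ) ≤ D := Nat.lt_succ_iff.1 k.2
      have h5 : ((k : ℕ) : ℝ) ≤ D := by exact_mod_cast this
      linarith
    have h4 : ∑ k, |V⁻¹ jj k| ≤ ∑ i, ∑ k, |V⁻¹ i k| :=
      Finset.single_le_sum (f := fun i => ∑ k, |V⁻¹ i k|)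
        (fun i _ => Finset.sum_nonneg fun k _ => abs_nonneg _) (Finset.mem_univ jj)
    have h5 : |c jj| = |g.coeff j| * |y| ^ j := by
      simp only [hc, hjj]
      rw [abs_mul, abs_pow]
    rw [← h5]
    calc |c jj| ≤ (∑ k, |V⁻¹ jj k|) * M := h3
      _ ≤ (1 + ∑ i, ∑ k, |V⁻¹ i k|) * M := mul_le_mul_of_nonneg_right (by linarith) hM0

/-- the polynomial with coefficients `c` in degrees `1, ..., D` -/
noncomputable def mk (D : ℕ) : (Fin D → ℝ) →ₗ[ℝ] ℝ[X] :=
  ∑ i : Fin D, (monomial ((i : ℕ) + 1)).comp (LinearMap.proj i)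

theorem mk_apply (D : ℕ) (c : Fin D → ℝ) :
    mk D c = ∑ i : Fin D, monomial ((i : ℕ) + 1) (c i) := by
  simp [mk, LinearMap.sum_apply]

theorem mk_coeff_succ (D : ℕ) (c : Fin D → ℝ) (i : Fin D) :
    (mk D c).coeff ((i : ℕ) + 1) = c i := by
  rw [mk_apply, finset_sum_coeff, Finset.sum_eq_single i]
  · simp
  · intro k _ hk
    rw [coeff_monomial, if_neg]
    intro h
    exact hk (Fin.ext (by omega))
  · intro h
    exact absurd (Finset.mem_univ i) h

theorem mk_coeff_zero (D : ℕ) (c : Fin D → ℝ) : (mk D c).coeff 0 = 0 := by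
  rw [mk_apply, finset_sum_coeff]
  refine Finset.sum_eq_zero fun k _ => ?_
  rw [coeff_monomial, if_neg (by omega)]

theorem mk_natDegree (D : ℕ) (c : Fin D → ℝ) : (mk D c).natDegree ≤ D := by
  rw [mk_apply]
  refine natDegree_sum_le_of_forall_le _ _ fun i _ => ?_
  refine (natDegree_monomial_le _).trans ?_
  have := i.2
  omega

theorem eq_mk {D : ℕ} {g : ℝ[X]} (hg : g.natDegree ≤ D) (h0 : g.eval 0 = 0) :
    g = mk D (fun i => g.coeff ((i : ℕ) + 1)) := by
  ext n
  rcases Nat.eq_zero_or_pos n with rfl | hn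
  · rw [mk_coeff_zero, coeff_zero_eq_eval_zero, h0]
  · rcases Nat.lt_or_ge D n with hj | hj
    · rw [coeff_eq_zero_of_natDegree_lt (hg.trans_lt hj),
        coeff_eq_zero_of_natDegree_lt ((mk_natDegree D _).trans_lt hj)]
    · obtain ⟨k, rfl⟩ : ∃ k, n = k + 1 := ⟨n - 1, by omega⟩
      exact (mk_coeff_succ D (fun i => g.coeff ((i : ℕ) + 1)) ⟨k, by omega⟩).symm

/-- coefficients at `0` up to order `k` and at `1` up to order `D - k` -/
noncomputable def Phi (D k : ℕ) : (Fin D → ℝ) →ₗ[ℝ] (Fin D → ℝ) :=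
  LinearMap.pi (fun i => if (i : ℕ) < k then LinearMap.proj i
    else (lcoeff ℝ ((i : ℕ) - k + 1)).comp ((taylor (1 : ℝ)).comp (mk D)))

theorem Phi_lt (D k : ℕ) (c : Fin D → ℝ) (i : Fin D) (h : (i : ℕ) < k) : Phi D k c i = c i := by
  simp [Phi, h]

theorem Phi_ge (D k : ℕ) (c : Fin D → ℝ) (i : Fin D) (h : ¬ (i : ℕ) < k) :
    Phi D k c i = (taylor 1 (mk D c)).coeff ((i : ℕ) - k + 1) := by
  simp [Phi, h]

theorem Phi_ker (D k : ℕ) (hk : k ≤ D) : LinearMap.ker (Phi D k) = ⊥ := by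
  rw [LinearMap.ker_eq_bot']
  intro c hc
  have hz : ∀ i, Phi D k c i = 0 := fun i => by rw [hc]; rfl
  set g := mk D c with hg
  have hdeg : g.natDegree ≤ D := mk_natDegree D c
  -- divisibility at `0`
  have h0 : X ^ (k + 1) ∣ g := by
    rw [X_pow_dvd_iff]
    intro d hd
    rcases Nat.eq_zero_or_pos d with rfl | hd0
    · exact mk_coeff_zero D c
    · obtain ⟨e, rfl⟩ : ∃ e, d = e + 1 := ⟨d - 1, by omega⟩
      have h1 := hz ⟨e, by omega⟩
      rw [Phi_lt D k c ⟨e, by omega⟩ (by simp; omega)] at h1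
      have h2 := mk_coeff_succ D c ⟨e, by omega⟩
      rw [h1] at h2
      exact h2
  -- divisibility at `1`
  have h1 : X ^ (D - k + 1) ∣ taylor 1 g - C (g.eval 1) := by
    rw [X_pow_dvd_iff]
    intro d hd
    rcases Nat.eq_zero_or_pos d with rfl | hd0
    · rw [coeff_sub, taylor_coeff_zero, coeff_C_zero, sub_self]
    · obtain ⟨e, rfl⟩ : ∃ e, d = e + 1 := ⟨d - 1, by omega⟩
      rw [coeff_sub, coeff_C_succ, sub_zero]
      have h2 := hz ⟨k + e, by omega⟩
      rw [Phi_ge D k c ⟨k + e, by omega⟩ (by simp)] at h2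
      simp only at h2
      rw [show k + e - k + 1 = e + 1 by omega] at h2
      exact h2
  have h1' : (X - C 1) ^ (D - k + 1) ∣ g - C (g.eval 1) := by
    obtain ⟨w, hw⟩ := h1
    refine ⟨w.comp (X - C 1), ?_⟩
    have h2 := congrArg (fun p => p.comp (X - C 1)) hw
    simp only [sub_comp, C_comp, mul_comp, pow_comp, X_comp] at h2
    rw [← h2, taylor_apply, comp_assoc]
    simp
  have hd0 : X ^ k ∣ derivative g := by
    have := pow_sub_one_dvd_derivative_of_pow_dvd h0
    simpa using this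
  have hd1 : (X - C 1) ^ (D - k) ∣ derivative g := by
    have := pow_sub_one_dvd_derivative_of_pow_dvd h1'
    simpa using this
  have hcop : IsCoprime ((X : ℝ[X]) ^ k) ((X - C 1) ^ (D - k)) := by
    apply IsCoprime.pow
    have h2 := isCoprime_X_sub_C_of_isUnit_sub (R := ℝ) (a := 0) (b := 1) (by norm_num)
    simpa using h2
  have hdiv := hcop.mul_dvd hd0 hd1
  have hder : derivative g = 0 := by
    by_contra hne
    have h2 := natDegree_le_of_dvd hdiv hne
    rw [natDegree_mul (pow_ne_zero _ X_ne_zero) (pow_ne_zero _ (X_sub_C_ne_zero 1)),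
      natDegree_pow, natDegree_X, natDegree_pow, natDegree_X_sub_C] at h2
    have h3 : 0 < g.natDegree := by
      by_contra h4
      have h5 : g = C (g.coeff 0) := eq_C_of_natDegree_le_zero (by omega)
      rw [h5, derivative_C] at hne
      exact hne rfl
    have h4 := natDegree_derivative_lt h3.ne'
    omega
  have hg0 : g = 0 := by
    have h2 := natDegree_eq_zero_of_derivative_eq_zero hder
    rw [eq_C_of_natDegree_eq_zero h2, hg, mk_coeff_zero, C_0]
  funext i
  have h2 := mk_coeff_succ D c i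
  rw [← hg, hg0, coeff_zero] at h2
  exact h2.symm

/-- the value at `1` is controlled by `D` coefficients at the two points -/
theorem herm (D k : ℕ) (hk : k ≤ D) : ∃ C : ℝ, 1 ≤ C ∧ ∀ g : ℝ[X], g.natDegree ≤ D →
    g.eval 0 = 0 → ∀ M : ℝ, 0 ≤ M → (∀ j, 1 ≤ j → j ≤ k → |g.coeff j| ≤ M) →
    (∀ j, 1 ≤ j → j ≤ D - k → |(taylor 1 g).coeff j| ≤ M) → |g.eval 1| ≤ C * M := by
  obtain ⟨K, _, hK⟩ := (Phi D k).exists_antilipschitzWith (Phi_ker D k hk)
  refine ⟨1 + D * K, by have := K.2; nlinarith [mul_nonneg (Nat.cast_nonneg (α := ℝ) D) this], ?_⟩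
  intro g hg h0 M hM h1 h2
  set c : Fin D → ℝ := fun i => g.coeff ((i : ℕ) + 1) with hc
  have hgc : g = mk D c := eq_mk hg h0
  have h3 : ‖Phi D k c‖ ≤ M := by
    rw [pi_norm_le_iff_of_nonneg hM]
    intro i
    rw [Real.norm_eq_abs]
    by_cases hi : (i : ℕ) < k
    · rw [Phi_lt D k c i hi]
      exact h1 _ (by omega) (by omega)
    · rw [Phi_ge D k c i hi, ← hgc]
      have := i.2
      exact h2 _ (by omega) (by omega)
  have h4 : ‖c‖ ≤ K * M := by
    have h5 := hK.le_mul_dist c 0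
    rw [map_zero, dist_zero_right, dist_zero_right] at h5
    exact h5.trans (mul_le_mul_of_nonneg_left h3 K.2)
  have h5 : g.eval 1 = ∑ i, c i := by
    conv_lhs => rw [hgc, mk_apply]
    rw [eval_finset_sum]
    simp
  rw [h5]
  calc |∑ i, c i| ≤ ∑ i, |c i| := Finset.abs_sum_le_sum_abs _ _
    _ ≤ ∑ _i : Fin D, K * M := Finset.sum_le_sum fun i _ => (norm_le_pi_norm c i).trans h4
    _ = D * K * M := by rw [Finset.sum_const, Finset.card_univ, Fintype.card_fin, nsmul_eq_mul]; ring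
    _ ≤ (1 + D * K) * M := by nlinarith

end Pool.Agent.H39.BD
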