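import Pool.Agent.H38.Sgn.Defs

/-!
Problem MP_8bd86c_an: compositions of blocks. A block is either a real polynomial of degree at
most `D` (weight one), or a real polynomial computed with `w` products (weight `w ≤ r`); products
inside a block may use all earlier intermediate results of that block, the next block sees only
the output of the previous one.
-/

set_option autoImplicit false

namespace Pool.Agent.H39.BD

open Polynomial Pool.Agent.H38.Sgn

/-- `Chain ok n p`: the polynomial `p` is a composition `f_k ∘ ... ∘ f_1` with `k ≥ 0`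
(the empty composition is `X`) such that `ok w_i f_i` holds for some weights `w_i` with
`w_1 + ... + w_k = n`. -/
inductive Chain (ok : ℕ → ℝ[X] → Prop) : ℕ → ℝ[X] → Prop
  | nil : Chain ok 0 X
  | cons {n w : ℕ} {p f : ℝ[X]} : Chain ok n p → ok w f → Chain ok (n + w) (f.comp p)

/-- Blocks of weight one: real polynomials of degree at most `D`. -/
def DegOk (D w : ℕ) (f : ℝ[X]) : Prop := w = 1 ∧ f.natDegree ≤ D

/-- Blocks of weight `w`, `1 ≤ w ≤ r`: real polynomials computed from `X` with `w` products
(`Prog`, free linear combinations, as in the problem). -/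
def BlkOk (r w : ℕ) (f : ℝ[X]) : Prop := 1 ≤ w ∧ w ≤ r ∧ Prog w f

/-- The smallest error on `[-1, -δ] ∪ [δ, 1]` (`err`, sup norm distance to the sign function) of
compositions of blocks of total weight at most `n`. -/
noncomputable def eps (ok : ℕ → ℝ[X] → Prop) (δ : ℝ) (n : ℕ) : ℝ :=
  sInf (err δ '' {p | ∃ k, k ≤ n ∧ Chain ok k p})

/-- The slope `log₂ (2^(r-1) (2^(r-1) + 1)) / (2 r)`. -/
noncomputable def rho (r : ℕ) : ℝ :=
  Real.logb 2 ((2 : ℝ) ^ (r - 1) * ((2 : ℝ) ^ (r - 1) + 1)) / (2 * r)

end Pool.Agent.H39.BD
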