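import Pool.Agent.H39.BD.Asym

/-! The two classes of blocks. -/

set_option autoImplicit false

namespace Pool.Agent.H39.BD

open Polynomial Pool.Agent.H38.Sgn

/-! ### blocks of bounded degree -/

theorem natDegree_comp_affine {F : ℝ[X]} {D : ℕ} (hF : F.natDegree ≤ D) (a b : ℝ) :
    (F.comp (C a * X + C b)).natDegree ≤ D := by
  refine natDegree_comp_le.trans ?_
  calc F.natDegree * (C a * X + C b).natDegree ≤ F.natDegree * 1 :=
        Nat.mul_le_mul_left _ natDegree_linear_le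
    _ ≤ D := by rw [mul_one]; exact hF

theorem natDegree_affine_comp {F : ℝ[X]} {D : ℕ} (hF : F.natDegree ≤ D) (a b : ℝ) :
    (C a * F + C b).natDegree ≤ D := by
  refine (natDegree_add_le _ _).trans (max_le ((natDegree_C_mul_le _ _).trans hF) ?_)
  rw [natDegree_C]
  exact Nat.zero_le _

theorem chain_NS_deg {D : ℕ} (hD : 3 ≤ D) (T : ℕ) : ∃ n, Chain (DegOk D) n (NS T) := by
  induction T with
  | zero => exact ⟨0, Chain.nil⟩
  | succ T ih =>
    obtain ⟨n, hn⟩ := ih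
    refine ⟨n + 1, hn.cons (f := C (3 / 2) * X + C (-1 / 2) * X ^ 3) ⟨rfl, ?_⟩⟩
    refine (natDegree_add_le _ _).trans (max_le ?_ ?_)
    · exact (natDegree_C_mul_le _ _).trans (natDegree_X_le.trans (by omega))
    · exact (natDegree_C_mul_X_pow_le _ _).trans hD

theorem mul_le_quarter {a b D : ℕ} (h : a + b = D + 1) : a * b ≤ (D + 1) ^ 2 / 4 := by
  rw [Nat.le_div_iff_mul_le (by norm_num), ← h]
  zify
  nlinarith [sq_nonneg ((a : ℤ) - b)]

theorem lt_quarter {D : ℕ} (hD : 3 ≤ D) : D < (D + 1) ^ 2 / 4 := by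
  rw [Nat.lt_iff_add_one_le, Nat.le_div_iff_mul_le (by norm_num)]
  nlinarith

theorem mul_eq_quarter (D : ℕ) : (D + 2) / 2 * ((D + 1) / 2) = (D + 1) ^ 2 / 4 := by
  rcases Nat.even_or_odd' D with ⟨k, rfl | rfl⟩
  · rw [show (2 * k + 2) / 2 = k + 1 by omega, show (2 * k + 1) / 2 = k by omega,
      show (2 * k + 1) ^ 2 = 1 + 4 * ((k + 1) * k) by ring, Nat.add_mul_div_left _ _ (by norm_num)]
    simp
  · rw [show (2 * k + 1 + 2) / 2 = k + 1 by omega, show (2 * k + 1 + 1) / 2 = k + 1 by omega,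
      show (2 * k + 1 + 1) ^ 2 = 4 * ((k + 1) * (k + 1)) by ring,
      Nat.mul_div_cancel_left _ (by norm_num)]

theorem deg_main {D : ℕ} (hD : 3 ≤ D) {δ : ℝ} (h0 : 0 < δ) (h1 : δ < 1) :
    ∃ K : ℝ, ∀ t : ℕ, ∃ T : ℕ, IsLeast {T : ℕ | 1 ≤ T ∧ epsComp δ T ≤ eps (DegOk D) δ t} T ∧
      0 < eps (DegOk D) δ t ∧ eps (DegOk D) δ t < 1 ∧
      |Real.logb 2 (Real.log (1 / eps (DegOk D) δ t)) -
        t / 2 * Real.logb 2 (((D + 1) ^ 2 / 4 : ℕ) : ℝ)| ≤ K ∧
      |(T : ℝ) - t / 2 * Real.logb 2 (((D + 1) ^ 2 / 4 : ℕ) : ℝ)| ≤ K := by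
  set s : ℕ := (D + 1) ^ 2 / 4 with hs
  have hsD : D < s := lt_quarter hD
  have hsR : (D : ℝ) < s := by exact_mod_cast hsD
  have hD0 : (0 : ℝ) < D := by exact_mod_cast (by omega : 0 < D)
  have hs0 : (0 : ℝ) < s := by linarith
  obtain ⟨F, hFd, hF0, hF1⟩ := exists_contact ((D + 2) / 2) ((D + 1) / 2) (by omega)
  have hFD : F.natDegree ≤ D := by omega
  have hab : (D + 2) / 2 * ((D + 1) / 2) = s := mul_eq_quarter D
  obtain ⟨K, hK⟩ := class_main (ok := DegOk D) (dg := fun _ => D) (D0 := D) (μ := s)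
    (θ := D / s) (by exact_mod_cast (by omega : 1 ≤ s)) (by positivity)
    (by rw [div_lt_one hs0]; exact hsR)
    (fun w f hf => ⟨hf.2, by show 2 ≤ D; omega, le_rfl⟩)
    (by
      intro w f hf a b ha hb hab
      rw [hf.1, pow_one]
      refine ⟨by exact_mod_cast mul_le_quarter hab, ?_⟩
      intro h
      rw [div_mul_cancel₀ _ hs0.ne']
      have : a * b = D := by
        rcases h with h | h
        · subst h; omega
        · subst h; omega
      exact_mod_cast this.le)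
    (chain_NS_deg hD) (a := (D + 2) / 2) (b := (D + 1) / 2) (w := 1)
    (by rw [hab]; omega) le_rfl (F := F) ⟨rfl, natDegree_comp_affine hFD _ _⟩
    ⟨rfl, natDegree_affine_comp (natDegree_affine_comp (natDegree_comp_affine hFD _ _) _ _) _ _⟩
    hF0 hF1 h0 h1
  refine ⟨2 * |K|, fun t => ?_⟩
  obtain ⟨k1, k2, k3, k4, T, hT, hT2⟩ := hK t
  rw [hab] at k4
  have h5 : Real.logb 2 (s : ℝ) / (2 * (1 : ℕ)) * t = t / 2 * Real.logb 2 (s : ℝ) := by
    push_cast; ring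
  rw [h5] at k4
  have h6 := le_abs_self K
  have h7 := abs_nonneg K
  refine ⟨T, hT, k1, k2, ?_, ?_⟩
  · rw [abs_le]; constructor <;> linarith
  · have h8 := abs_le.1 hT2
    rw [abs_le]; constructor <;> linarith [h8.1, h8.2]

/-! ### blocks with a bounded number of products -/

theorem chain_NS_blk {r : ℕ} (hr : 2 ≤ r) (T : ℕ) : ∃ n, Chain (BlkOk r) n (NS T) := by
  induction T with
  | zero => exact ⟨0, Chain.nil⟩
  | succ T ih =>
    obtain ⟨n, hn⟩ := ih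
    exact ⟨n + 2, hn.cons (f := C (3 / 2) * X + C (-1 / 2) * X ^ 3)
      ⟨by norm_num, hr, (preach_cubic _ _).prog⟩⟩

theorem blk_ok1 {r w : ℕ} (hw : 1 ≤ w) (hwr : w ≤ r) {F : ℝ[X]} (hF : PReach w F) :
    BlkOk r w (F.comp (C (1 / 2) * X + C (1 / 2))) := by
  refine ⟨hw, hwr, ?_⟩
  have := (preach_linear (1 / 2) (1 / 2)).comp hF
  rw [zero_add] at this
  exact this.prog

theorem blk_ok2 {r w : ℕ} (hw : 1 ≤ w) (hwr : w ≤ r) {F : ℝ[X]} (hF : PReach w F) :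
    BlkOk r w (C 2 * (C (-1) * F.comp (C (-1) * X + C 1) + C 1) + C (-1)) := by
  refine ⟨hw, hwr, ?_⟩
  have := (preach_linear (-1) 1).comp hF
  rw [zero_add] at this
  exact ((this.affine (-1) 1).affine 2 (-1)).prog

/-- the largest product `a b` with `a + b = 2 ^ j + 1` -/
noncomputable def M (j : ℕ) : ℝ := (2 : ℝ) ^ (j - 1) * ((2 : ℝ) ^ (j - 1) + 1)

theorem M_pos (j : ℕ) : 0 < M j := by unfold M; positivity

theorem two_mul_le_two_pow (w : ℕ) (hw : 1 ≤ w) : 2 * w ≤ 2 ^ w := by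
  induction w, hw using Nat.le_induction with
  | base => norm_num
  | succ n hn ih => rw [pow_succ]; omega

theorem M_step (w : ℕ) (hw : 1 ≤ w) : M w ^ (w + 1) ≤ M (w + 1) ^ w := by
  obtain ⟨v, rfl⟩ : ∃ v, w = v + 1 := ⟨w - 1, by omega⟩
  have hx : M (v + 1 + 1) = M (v + 1) * (4 * (1 + -(1 / (2 ^ (v + 1) + 2)))) := by
    unfold M
    simp only [Nat.add_sub_cancel]
    have : (0 : ℝ) < 2 ^ (v + 1) + 2 := by positivity
    field_simp
    ring
  have hb := one_add_mul_le_pow (a := -(1 / ((2 : ℝ) ^ (v + 1) + 2))) (by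
    have h1 : 1 / ((2 : ℝ) ^ (v + 1) + 2) ≤ 1 := by
      rw [div_le_one (by positivity)]
      have : (0 : ℝ) < 2 ^ (v + 1) := by positivity
      linarith
    linarith) (v + 1)
  have h2 : (1 : ℝ) / 2 ≤ 1 + ((v + 1 : ℕ) : ℝ) * -(1 / ((2 : ℝ) ^ (v + 1) + 2)) := by
    have h3 : 2 * ((v + 1 : ℕ) : ℝ) ≤ 2 ^ (v + 1) := by
      exact_mod_cast two_mul_le_two_pow (v + 1) (by omega)
    have h4 : ((v + 1 : ℕ) : ℝ) * (1 / ((2 : ℝ) ^ (v + 1) + 2)) ≤ 1 / 2 := by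
      rw [mul_one_div, div_le_div_iff₀ (by positivity) (by norm_num)]
      linarith
    linarith
  have h3 : M (v + 1) ≤ (4 * (1 + -(1 / ((2 : ℝ) ^ (v + 1) + 2)))) ^ (v + 1) := by
    rw [mul_pow]
    have h5 : M (v + 1) ≤ 4 ^ (v + 1) * (1 / 2) := by
      unfold M
      simp only [Nat.add_sub_cancel]
      have h6 : (4 : ℝ) ^ (v + 1) = 4 * (2 ^ v * 2 ^ v) := by
        rw [pow_succ, show (4 : ℝ) = 2 * 2 by norm_num, mul_pow]; ring
      have h7 : (1 : ℝ) ≤ 2 ^ v := one_le_pow₀ (by norm_num)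
      rw [h6]
      nlinarith
    exact h5.trans (mul_le_mul_of_nonneg_left (h2.trans hb) (by positivity))
  calc M (v + 1) ^ (v + 1 + 1) = M (v + 1) ^ (v + 1) * M (v + 1) := pow_succ _ _
    _ ≤ M (v + 1) ^ (v + 1) * (4 * (1 + -(1 / ((2 : ℝ) ^ (v + 1) + 2)))) ^ (v + 1) :=
        mul_le_mul_of_nonneg_left h3 (pow_nonneg (M_pos _).le _)
    _ = M (v + 1 + 1) ^ (v + 1) := by rw [hx, mul_pow (M (v + 1))]

theorem M_log_mono (w r : ℕ) (hw : 1 ≤ w) (h : w ≤ r) :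
    Real.log (M w) / w ≤ Real.log (M r) / r := by
  induction r, h using Nat.le_induction with
  | base => exact le_rfl
  | succ n hn ih =>
    refine ih.trans ?_
    have hn1 : 1 ≤ n := hw.trans hn
    have h1 := Real.log_le_log (pow_pos (M_pos n) _) (M_step n hn1)
    rw [Real.log_pow, Real.log_pow] at h1
    have h2 : (0 : ℝ) < n := by exact_mod_cast hn1
    rw [div_le_div_iff₀ h2 (by positivity)]
    push_cast at h1 ⊢
    linarith

theorem two_pow_lt_M {r : ℕ} (hr : 2 ≤ r) : (2 : ℝ) ^ r < M r := by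
  obtain ⟨v, rfl⟩ : ∃ v, r = v + 2 := ⟨r - 2, by omega⟩
  unfold M
  rw [show v + 2 - 1 = v + 1 by omega, show (2 : ℝ) ^ (v + 2) = 2 ^ (v + 1) * 2 by ring]
  apply mul_lt_mul_of_pos_left _ (by positivity)
  have : (1 : ℝ) ≤ 2 ^ v := one_le_pow₀ (by norm_num)
  rw [pow_succ]
  linarith

theorem mul_le_M {a b w : ℕ} (hw : 1 ≤ w) (h : a + b = 2 ^ w + 1) : (a : ℝ) * b ≤ M w := by
  obtain ⟨v, rfl⟩ : ∃ v, w = v + 1 := ⟨w - 1, by omega⟩
  unfold M
  simp only [Nat.add_sub_cancel]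
  have hb : (b : ℝ) = 2 * 2 ^ v + 1 - a := by
    have : (a : ℝ) + b = 2 ^ (v + 1) + 1 := by exact_mod_cast h
    rw [pow_succ] at this
    linarith
  have hN : (0 : ℝ) ≤ (a - 2 ^ v) * (a - 2 ^ v - 1) := by
    rcases Nat.lt_or_ge (2 ^ v) a with hlt | hge
    · have h1 : (2 : ℝ) ^ v + 1 ≤ a := by exact_mod_cast hlt
      exact mul_nonneg (by linarith) (by linarith)
    · have h1 : (a : ℝ) ≤ 2 ^ v := by exact_mod_cast hge
      nlinarith
  rw [hb]
  nlinarith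

theorem rho_le {r : ℕ} (hr : 1 ≤ r) : rho r ≤ 1 - 1 / (2 * r) := by
  have hr0 : (0 : ℝ) < r := by exact_mod_cast hr
  have h1 : (2 : ℝ) ^ (r - 1) * ((2 : ℝ) ^ (r - 1) + 1) ≤ 2 ^ (2 * r - 1) := by
    obtain ⟨v, rfl⟩ : ∃ v, r = v + 1 := ⟨r - 1, by omega⟩
    rw [show 2 * (v + 1) - 1 = v + (v + 1) by omega, pow_add, Nat.add_sub_cancel]
    apply mul_le_mul_of_nonneg_left _ (by positivity)
    have : (1 : ℝ) ≤ 2 ^ v := one_le_pow₀ (by norm_num)
    rw [pow_succ]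
    linarith
  have h2 := Real.logb_le_logb_of_le (b := 2) (by norm_num) (by positivity) h1
  rw [Real.logb_pow, Real.logb_self_eq_one (by norm_num), mul_one] at h2
  have h3 : ((2 * r - 1 : ℕ) : ℝ) = 2 * r - 1 := by
    rw [Nat.cast_sub (by omega)]; push_cast; ring
  rw [h3] at h2
  unfold rho
  rw [div_le_iff₀ (by positivity)]
  calc _ ≤ 2 * (r : ℝ) - 1 := h2
    _ = (1 - 1 / (2 * r)) * (2 * r) := by field_simp

/-- the general form for blocks with at most `r` products -/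
theorem blk_general {r : ℕ} (hr : 2 ≤ r) {a b w : ℕ} (hs : 2 ≤ a * b) (hw : 1 ≤ w) (hwr : w ≤ r)
    {F : ℝ[X]} (hF : PReach w F) (hF0 : X ^ a ∣ F) (hF1 : (X - C 1) ^ b ∣ F - 1)
    {δ : ℝ} (h0 : 0 < δ) (h1 : δ < 1) :
    ∃ K : ℝ, 0 ≤ K ∧ ∀ m : ℕ, ∃ T : ℕ,
      IsLeast {T : ℕ | 1 ≤ T ∧ epsComp δ T ≤ eps (BlkOk r) δ m} T ∧
      0 < eps (BlkOk r) δ m ∧ eps (BlkOk r) δ m < 1 ∧
      |(T : ℝ) - Real.logb 2 (Real.log (1 / eps (BlkOk r) δ m))| ≤ K ∧
      T ≤ rho r * m + K ∧ Real.logb 2 ((a * b : ℕ) : ℝ) / (2 * w) * m - K ≤ T := by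
  have hr0 : (0 : ℝ) < r := by exact_mod_cast (by omega : 0 < r)
  have hlog2 : 0 < Real.log 2 := Real.log_pos (by norm_num)
  set ℓ : ℝ := Real.log (M r) / r with hℓ
  have hℓ2 : Real.log 2 < ℓ := by
    rw [hℓ, lt_div_iff₀ hr0]
    have h2 := Real.log_lt_log (by positivity) (two_pow_lt_M hr)
    rw [Real.log_pow] at h2
    linarith
  set μ : ℝ := Real.exp ℓ with hμ
  have hμ2 : 2 < μ := by
    rw [hμ, ← Real.exp_log (show (0 : ℝ) < 2 by norm_num)]
    exact Real.exp_lt_exp.2 hℓ2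
  have hMμ : ∀ j, 1 ≤ j → j ≤ r → M j ≤ μ ^ j := by
    intro j hj hjr
    have h2 := M_log_mono j r hj hjr
    have hj0 : (0 : ℝ) < j := by exact_mod_cast hj
    rw [div_le_iff₀ hj0] at h2
    rw [hμ, ← Real.exp_nat_mul, ← Real.exp_log (M_pos j)]
    apply Real.exp_le_exp.2
    rw [hℓ]
    linarith
  obtain ⟨K, hK⟩ := class_main (ok := BlkOk r) (dg := fun w => 2 ^ w) (D0 := 2 ^ r) (μ := μ)
    (θ := 2 / μ) (by linarith) (by positivity)
    (by rw [div_lt_one (by linarith)]; exact hμ2)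
    (by
      intro v f hf
      refine ⟨prog_natDegree hf.2.2, ?_, Nat.pow_le_pow_right (by norm_num) hf.2.1⟩
      calc 2 = 2 ^ 1 := by norm_num
        _ ≤ 2 ^ v := Nat.pow_le_pow_right (by norm_num) hf.1)
    (by
      intro v f hf c d hc hd hcd
      refine ⟨(mul_le_M hf.1 hcd).trans (hMμ v hf.1 hf.2.1), fun h => ?_⟩
      have hcd2 : c * d = 2 ^ v := by
        rcases h with h | h
        · subst h; omega
        · subst h; omega
      have hcd3 : (c : ℝ) * d = 2 ^ v := by exact_mod_cast hcd2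
      obtain ⟨u, rfl⟩ : ∃ u, v = u + 1 := ⟨v - 1, by have := hf.1; omega⟩
      rw [hcd3, pow_succ, pow_succ]
      have h3 : (2 : ℝ) ^ u ≤ μ ^ u := pow_le_pow_left₀ (by norm_num) hμ2.le _
      calc (2 : ℝ) ^ u * 2 ≤ μ ^ u * 2 := mul_le_mul_of_nonneg_right h3 (by norm_num)
        _ = 2 / μ * (μ ^ u * μ) := by field_simp)
    (chain_NS_blk hr) hs hw (blk_ok1 hw hwr hF) (blk_ok2 hw hwr hF) hF0 hF1 h0 h1
  refine ⟨2 * |K|, by positivity, fun m => ?_⟩
  obtain ⟨k1, k2, k3, k4, T, hT, hT2⟩ := hK m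
  have h6 := le_abs_self K
  have h7 := abs_nonneg K
  have h8 := abs_le.1 hT2
  have h9 : (m : ℝ) / 2 * Real.logb 2 μ = rho r * m := by
    have h10 : Real.logb 2 μ = Real.logb 2 (M r) / r := by
      rw [Real.logb, hμ, Real.log_exp, hℓ, Real.logb]
      ring
    have h11 : rho r = Real.logb 2 (M r) / (2 * r) := rfl
    rw [h10, h11]
    field_simp
  rw [h9] at k3
  refine ⟨T, hT, k1, k2, hT2.trans (by linarith), by linarith [h8.1, h8.2],
    by linarith [h8.1, h8.2]⟩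

end Pool.Agent.H39.BD
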