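import Pool.Agent.H39.BD.Chain
import Pool.Agent.H38.Sgn.Block

/-! Compositions with small error: contact at both points, iterated after Newton-Schulz steps. -/

set_option autoImplicit false

namespace Pool.Agent.H39.BD

open Polynomial Pool.Agent.H38.Sgn

/-- a polynomial of degree less than `a + b` with contact `a` at `0` and `b` at `1` -/
theorem exists_contact (a b : ℕ) (ha : 1 ≤ a) : ∃ F : ℝ[X], F.natDegree ≤ a + b - 1 ∧
    X ^ a ∣ F ∧ (X - C 1) ^ b ∣ F - 1 := by
  have hcop : IsCoprime ((X : ℝ[X]) ^ a) ((X - C 1) ^ b) := by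
    apply IsCoprime.pow
    have h2 := isCoprime_X_sub_C_of_isUnit_sub (R := ℝ) (a := 0) (b := 1) (by norm_num)
    simpa using h2
  obtain ⟨u, v, huv⟩ := hcop
  set P : ℝ[X] := X ^ a * (X - C 1) ^ b with hP
  have hPm : P.Monic := (monic_X_pow a).mul ((monic_X_sub_C 1).pow b)
  have hPd : P.natDegree = a + b := by
    rw [hP, natDegree_mul (pow_ne_zero _ X_ne_zero) (pow_ne_zero _ (X_sub_C_ne_zero 1)),
      natDegree_pow, natDegree_X, natDegree_pow, natDegree_X_sub_C, mul_one, mul_one]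
  have hmod := modByMonic_add_div (u * X ^ a) P
  refine ⟨(u * X ^ a) %ₘ P, ?_, ?_, ?_⟩
  · have h1 : ((u * X ^ a) %ₘ P).natDegree < P.natDegree := by
      apply natDegree_modByMonic_lt _ hPm
      intro h
      rw [h, natDegree_one] at hPd
      omega
    omega
  · have h1 : (u * X ^ a) %ₘ P = u * X ^ a - P * ((u * X ^ a) /ₘ P) :=
      eq_sub_of_add_eq hmod
    rw [h1]
    nth_rewrite 2 [hP]
    rw [mul_assoc]
    exact dvd_sub (Dvd.intro_left _ rfl) (Dvd.intro _ rfl)
  · have h1 : (u * X ^ a) %ₘ P - 1 =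
        -(v * (X - C 1) ^ b) - P * ((u * X ^ a) /ₘ P) := by
      have h2 : (1 : ℝ[X]) = u * X ^ a + v * (X - C 1) ^ b := huv.symm
      have h3 : (u * X ^ a) %ₘ P = u * X ^ a - P * ((u * X ^ a) /ₘ P) :=
        eq_sub_of_add_eq hmod
      linear_combination h3 - h2
    rw [h1]
    refine dvd_sub (Dvd.dvd.neg_right (Dvd.intro_left _ rfl)) ?_
    refine Dvd.dvd.mul_right ?_ _
    rw [hP]
    exact Dvd.intro_left _ rfl

/-- the two blocks obtained from a contact polynomial -/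
theorem sym_pair {a b : ℕ} {F : ℝ[X]} (hF0 : X ^ a ∣ F) (hF1 : (X - C 1) ^ b ∣ F - 1) :
    (X - C 1) ^ (a * b) ∣
      (C 2 * (C (-1) * F.comp (C (-1) * X + C 1) + C 1) + C (-1)).comp
        (F.comp (C (1 / 2) * X + C (1 / 2))) - C 1 ∧
    (X - C (-1)) ^ (a * b) ∣
      (C 2 * (C (-1) * F.comp (C (-1) * X + C 1) + C 1) + C (-1)).comp
        (F.comp (C (1 / 2) * X + C (1 / 2))) - C (-1) := by
  set L : ℝ[X] := C (-1) * X + C 1 with hL
  set G : ℝ[X] := C (-1) * F.comp L + C 1 with hG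
  set N : ℝ[X] := C (1 / 2) * X + C (1 / 2) with hN
  have hG0 : X ^ b ∣ G := by
    obtain ⟨g, hg⟩ := hF1
    have : G = -((F - 1).comp L) := by
      rw [hG, sub_comp, one_comp]
      simp only [map_neg, map_one]
      ring
    rw [this, hg, mul_comp, pow_comp, sub_comp, X_comp, C_comp]
    have h2 : L - C 1 = -X := by rw [hL]; simp
    rw [h2]
    refine Dvd.dvd.neg_right (Dvd.dvd.mul_right ?_ _)
    rw [neg_pow]
    exact Dvd.intro_left _ rfl
  have hG1 : (X - C 1) ^ a ∣ G - 1 := by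
    obtain ⟨g, hg⟩ := hF0
    have : G - 1 = -(F.comp L) := by
      rw [hG]
      simp only [map_neg, map_one]
      ring
    rw [this, hg, mul_comp, pow_comp, X_comp]
    have h2 : L = -(X - C 1) := by rw [hL]; simp; ring
    rw [h2]
    refine Dvd.dvd.neg_right (Dvd.dvd.mul_right ?_ _)
    rw [neg_pow]
    exact Dvd.intro_left _ rfl
  set K : ℝ[X] := G.comp F with hK
  have hK0 : X ^ (a * b) ∣ K := by
    obtain ⟨g, hg⟩ := hG0
    rw [hK, hg, mul_comp, pow_comp, X_comp, pow_mul]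
    exact Dvd.dvd.mul_right (pow_dvd_pow_of_dvd hF0 b) _
  have hK1 : (X - C 1) ^ (a * b) ∣ K - 1 := by
    obtain ⟨g, hg⟩ := hG1
    have h0 : K - 1 = (G - 1).comp F := by rw [sub_comp, one_comp]
    rw [h0, hg, mul_comp, pow_comp, sub_comp, X_comp, C_comp, mul_comm a b, pow_mul]
    rw [← C_1] at hF1
    exact Dvd.dvd.mul_right (pow_dvd_pow_of_dvd hF1 a) _
  have hE : (C 2 * G + C (-1)).comp (F.comp N) = C 2 * K.comp N + C (-1) := by
    rw [hK, comp_assoc, add_comp, mul_comp, C_comp, C_comp]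
  rw [hE]
  constructor
  · obtain ⟨g, hg⟩ := hK1
    have h1 : C 2 * K.comp N + C (-1) - C 1 = C 2 * (K - 1).comp N := by
      rw [sub_comp, one_comp]
      simp only [map_neg, map_one, C_ofNat]
      ring
    rw [h1, hg, mul_comp, pow_comp, sub_comp, X_comp, C_comp]
    have h2 : N - C 1 = C (1 / 2) * (X - C 1) := by
      rw [hN]
      refine Polynomial.funext fun y => ?_
      simp only [eval_sub, eval_mul, eval_C, eval_X, eval_add]
      ring
    rw [h2, mul_pow]
    exact Dvd.intro _ (by ring : _ * (C 2 * (C (1 / 2) ^ (a * b) * g.comp N)) = _)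
  · obtain ⟨g, hg⟩ := hK0
    have h1 : C 2 * K.comp N + C (-1) - C (-1) = C 2 * K.comp N := by ring
    rw [h1, hg, mul_comp, pow_comp, X_comp]
    have h2 : N = C (1 / 2) * (X - C (-1)) := by
      rw [hN]
      refine Polynomial.funext fun y => ?_
      simp only [eval_sub, eval_mul, eval_C, eval_X, eval_add]
      ring
    have h3 : N ^ (a * b) = C (1 / 2) ^ (a * b) * (X - C (-1)) ^ (a * b) := by rw [h2, mul_pow]
    rw [h3]
    exact Dvd.intro _ (by ring : _ * (C 2 * (C (1 / 2) ^ (a * b) * g.comp N)) = _)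

/-- iteration of a pair of blocks with contact `s` at both points -/
theorem chain_upper {ok : ℕ → ℝ[X] → Prop} (hNS : ∀ T, ∃ n, Chain ok n (NS T)) {s w : ℕ}
    (hs : 2 ≤ s) {f1 f2 : ℝ[X]} (hok1 : ok w f1) (hok2 : ok w f2)
    (h1 : (X - C 1) ^ s ∣ f2.comp f1 - C 1) (h2 : (X - C (-1)) ^ s ∣ f2.comp f1 - C (-1))
    {δ : ℝ} (h0 : 0 < δ) (hδ : δ < 1) :
    ∃ n0, ∀ k, ∃ p, Chain ok (n0 + 2 * w * k) p ∧ err δ p ≤ (1 / 2) ^ (s ^ k) := by
  set E := f2.comp f1 with hEdef
  obtain ⟨M1, hM1, hb1⟩ := contact_bound h1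
  obtain ⟨M2, hM2, hb2⟩ := contact_bound h2
  set M := max M1 M2 with hM
  have hM1' : 1 ≤ M := hM1.trans (le_max_left _ _)
  have hM0 : 0 < M := by linarith
  obtain ⟨T0, hT0⟩ := NS_small h0 hδ (show (0:ℝ) < 1 / (2 * M) by positivity)
  obtain ⟨n0, hn0⟩ := hNS T0
  -- the iterates
  let G : ℕ → ℝ[X] := fun k => (fun p => E.comp p)^[k] (NS T0)
  have hG0 : G 0 = NS T0 := rfl
  have hGs : ∀ k, G (k + 1) = E.comp (G k) := fun k => Function.iterate_succ_apply' _ _ _
  have hGP : ∀ k, Chain ok (n0 + 2 * w * k) (G k) := by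
    intro k
    induction k with
    | zero => exact hn0
    | succ k ih =>
      have h3 := (ih.cons hok1).cons hok2
      rw [hGs, hEdef, comp_assoc]
      have h4 : n0 + 2 * w * (k + 1) = n0 + 2 * w * k + w + w := by ring
      rw [h4]
      exact h3
  have hinv : ∀ k, (1 / 2 : ℝ) ^ (s ^ k) ≤ 1 := fun k => pow_le_one₀ (by norm_num) (by norm_num)
  have step : ∀ {d v : ℝ} {k : ℕ}, (∀ x, |x - d| ≤ 1 → |E.eval x - d| ≤ M * |x - d| ^ s) →
      M * |v - d| ≤ (1 / 2) ^ (s ^ k) → M * |E.eval v - d| ≤ (1 / 2) ^ (s ^ (k + 1)) := by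
    intro d v k hb hv
    have h3 : |v - d| ≤ 1 := by
      have : |v - d| ≤ M * |v - d| := le_mul_of_one_le_left (abs_nonneg _) hM1'
      exact this.trans (hv.trans (hinv k))
    have h4 := hb v h3
    calc M * |E.eval v - d| ≤ M * (M * |v - d| ^ s) := mul_le_mul_of_nonneg_left h4 hM0.le
      _ = M ^ 2 * |v - d| ^ s := by ring
      _ ≤ M ^ s * |v - d| ^ s := by
          apply mul_le_mul_of_nonneg_right (pow_le_pow_right₀ hM1' hs) (by positivity)
      _ = (M * |v - d|) ^ s := by rw [mul_pow]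
      _ ≤ ((1 / 2) ^ (s ^ k)) ^ s := pow_le_pow_left₀ (by positivity) hv _
      _ = _ := by rw [← pow_mul, ← pow_succ]
  have hb1' : ∀ x, |x - 1| ≤ 1 → |E.eval x - 1| ≤ M * |x - 1| ^ s := fun x hx =>
    (hb1 x hx).trans (mul_le_mul_of_nonneg_right (le_max_left _ _) (by positivity))
  have hb2' : ∀ x, |x - (-1)| ≤ 1 → |E.eval x - (-1)| ≤ M * |x - (-1)| ^ s := fun x hx =>
    (hb2 x hx).trans (mul_le_mul_of_nonneg_right (le_max_right _ _) (by positivity))
  have hpos : ∀ k x, δ ≤ x → x ≤ 1 → M * |(G k).eval x - 1| ≤ (1 / 2) ^ (s ^ k) := by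
    intro k x hx hx'
    induction k with
    | zero =>
      have h3 := hT0 x hx hx'
      have h4 := (NS_bounds h0 hx hx' T0).2
      rw [hG0, abs_of_nonpos (by linarith), pow_zero, pow_one]
      rw [le_div_iff₀ (by positivity)] at h3
      linarith
    | succ k ih =>
      rw [hGs, eval_comp]
      exact step hb1' ih
  have hneg : ∀ k x, -1 ≤ x → x ≤ -δ → M * |(G k).eval x - (-1)| ≤ (1 / 2) ^ (s ^ k) := by
    intro k x hx hx'
    induction k with
    | zero =>
      have h3 := hT0 (-x) (by linarith) (by linarith)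
      have h4 := (NS_bounds h0 (x := -x) (by linarith) (by linarith) T0).2
      rw [NS_odd] at h3 h4
      rw [hG0, abs_of_nonneg (by linarith), pow_zero, pow_one]
      rw [le_div_iff₀ (by positivity)] at h3
      linarith
    | succ k ih =>
      rw [hGs, eval_comp]
      exact step hb2' ih
  refine ⟨n0, fun k => ⟨G k, hGP k, err_le h0 hδ ?_ ?_⟩⟩
  · intro x hx hx'
    exact (le_mul_of_one_le_left (abs_nonneg _) hM1').trans (hpos k x hx hx')
  · intro x hx hx'
    have := (le_mul_of_one_le_left (abs_nonneg _) hM1').trans (hneg k x hx hx')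
    rwa [sub_neg_eq_add] at this

/-- two products, contact `3` at `0` and `2` at `1` -/
theorem exists_F2 : ∃ F : ℝ[X], PReach 2 F ∧ X ^ 3 ∣ F ∧ (X - C 1) ^ 2 ∣ F - 1 := by
  have h1 := Reach.base.step Reach.base.X_mem Reach.base.X_mem
  have hX2 : (X * X : ℝ[X]) ∈ Submodule.span ℝ {1, X} ⊔ Submodule.span ℝ {(X * X : ℝ[X])} :=
    Submodule.mem_sup_right (Submodule.mem_span_singleton_self _)
  have hv : C 4 * X + C (-3) * (X * X : ℝ[X]) ∈
      Submodule.span ℝ {1, X} ⊔ Submodule.span ℝ {(X * X : ℝ[X])} :=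
    Submodule.add_mem _ (C_mul_mem _ h1.X_mem) (C_mul_mem _ hX2)
  have h2 := h1.step hX2 hv
  refine ⟨(X * X) * (C 4 * X + C (-3) * (X * X)), ⟨_, h2, ?_⟩, ?_, ?_⟩
  · exact Submodule.mem_sup_right (Submodule.mem_span_singleton_self _)
  · exact Dvd.intro (C 4 + C (-3) * X) (by ring)
  · refine ⟨-(1 + 2 * X + 3 * X ^ 2), ?_⟩
    refine Polynomial.funext fun y => ?_
    simp only [eval_sub, eval_mul, eval_C, eval_pow, eval_X, eval_add, eval_one, eval_ofNat,
      eval_neg]
    ring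

/-- three products, contact `5` at `0` and `4` at `1` -/
theorem exists_F3 : ∃ F : ℝ[X], PReach 3 F ∧ X ^ 5 ∣ F ∧ (X - C 1) ^ 4 ∣ F - 1 := by
  have h1 := Reach.base.step Reach.base.X_mem Reach.base.X_mem
  have hX2 : (X * X : ℝ[X]) ∈ Submodule.span ℝ {1, X} ⊔ Submodule.span ℝ {(X * X : ℝ[X])} :=
    Submodule.mem_sup_right (Submodule.mem_span_singleton_self _)
  have hv : (X * X : ℝ[X]) + C (-12 / 7) * X ∈
      Submodule.span ℝ {1, X} ⊔ Submodule.span ℝ {(X * X : ℝ[X])} :=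
    Submodule.add_mem _ hX2 (C_mul_mem _ h1.X_mem)
  have h2 := h1.step hX2 hv
  set V2 := Submodule.span ℝ {1, X} ⊔ Submodule.span ℝ {(X * X : ℝ[X])} ⊔
    Submodule.span ℝ {X * X * (X * X + C (-12 / 7) * X)} with hV2
  have hX2' : (X * X : ℝ[X]) ∈ V2 := Submodule.mem_sup_left hX2
  have hP2 : X * X * (X * X + C (-12 / 7) * X) ∈ V2 :=
    Submodule.mem_sup_right (Submodule.mem_span_singleton_self _)
  have hA : X * X * (X * X + C (-12 / 7) * X) + (C (75 / 49) * (X * X) +
      C (-9246 / 12005) * X) ∈ V2 :=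
    Submodule.add_mem _ hP2 (Submodule.add_mem _ (C_mul_mem _ hX2') (C_mul_mem _ h2.X_mem))
  have hB : X * X * (X * X + C (-12 / 7) * X) + (C (-23 / 49) * (X * X) +
      C (11878 / 12005) * X) ∈ V2 :=
    Submodule.add_mem _ hP2 (Submodule.add_mem _ (C_mul_mem _ hX2') (C_mul_mem _ h2.X_mem))
  have h3 := h2.step hA hB
  refine ⟨C (-35) * ((X * X * (X * X + C (-12 / 7) * X) + (C (75 / 49) * (X * X) +
      C (-9246 / 12005) * X)) * (X * X * (X * X + C (-12 / 7) * X) + (C (-23 / 49) * (X * X) +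
      C (11878 / 12005) * X)) + (C (13137 / 12005) * (X * X * (X * X + C (-12 / 7) * X)) +
      C (109823988 / 144120025) * (X * X))), ⟨_, h3, ?_⟩, ?_, ?_⟩
  · refine C_mul_mem _ (Submodule.add_mem _
      (Submodule.mem_sup_right (Submodule.mem_span_singleton_self _))
      (Submodule.mem_sup_left (Submodule.add_mem _ (C_mul_mem _ hP2) (C_mul_mem _ hX2'))))
  · refine ⟨56 - 140 * X + 120 * X ^ 2 - 35 * X ^ 3, ?_⟩
    refine Polynomial.funext fun y => ?_
    simp only [eval_sub, eval_mul, eval_C, eval_pow, eval_X, eval_add, eval_ofNat]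
    ring
  · refine ⟨-(1 + 4 * X + 10 * X ^ 2 + 20 * X ^ 3 + 35 * X ^ 4), ?_⟩
    refine Polynomial.funext fun y => ?_
    simp only [eval_sub, eval_mul, eval_C, eval_pow, eval_X, eval_add, eval_one, eval_ofNat,
      eval_neg]
    ring

end Pool.Agent.H39.BD
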